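import Pool.Agent.H212.CS.Stm

/-! BL: the Blaschke product from the abstract product (helper176) -/

open Complex Set Filter Topology
open scoped ComplexConjugate

namespace Pool.Agent.H212.CS

theorem BL_den {z w : ℂ} (hz : ‖z‖ < 1) (hw : ‖w‖ < 1) : 1 - ‖w‖ ≤ ‖1 - conj z * w‖ := by
  have h1 : ‖(1 : ℂ)‖ - ‖conj z * w‖ ≤ ‖1 - conj z * w‖ := norm_sub_norm_le _ _
  have h2 : ‖conj z * w‖ ≤ ‖w‖ := by
    rw [norm_mul, RCLike.norm_conj]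
    have := norm_nonneg w
    nlinarith
  rw [norm_one] at h1
  linarith

theorem BL_ne {z w : ℂ} (hz : ‖z‖ < 1) (hw : ‖w‖ < 1) : 1 - conj z * w ≠ 0 := by
  intro h
  have := BL_den hz hw
  rw [h, norm_zero] at this
  linarith

theorem BL_sq (z : ℂ) : ((‖z‖ ^ 2 : ℝ) : ℂ) = conj z * z := by
  rw [← Complex.normSq_eq_norm_sq, ← Complex.normSq_eq_conj_mul_self]

theorem BL_fac {z w : ℂ} (hz : ‖z‖ < 1) (hw : ‖w‖ < 1) :
    1 - ((1 - ‖z‖ ^ 2 : ℝ) : ℂ) / (1 - conj z * w) = conj z * ((z - w) / (1 - conj z * w)) := by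
  have h := BL_ne hz hw
  have e : ((1 - ‖z‖ ^ 2 : ℝ) : ℂ) = 1 - conj z * z := by
    rw [← BL_sq]
    push_cast
    ring
  rw [e]
  field_simp
  ring

theorem BL_le {z w : ℂ} (hz : ‖z‖ < 1) (hw : ‖w‖ < 1) : ‖z - w‖ ≤ ‖1 - conj z * w‖ := by
  have h1 : ‖1 - conj z * w‖ ^ 2 - ‖z - w‖ ^ 2 = (1 - ‖z‖ ^ 2) * (1 - ‖w‖ ^ 2) := by
    rw [← Complex.normSq_eq_norm_sq, ← Complex.normSq_eq_norm_sq, ← Complex.normSq_eq_norm_sq,
      ← Complex.normSq_eq_norm_sq]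
    simp only [Complex.normSq_apply, Complex.sub_re, Complex.sub_im, Complex.mul_re,
      Complex.mul_im, Complex.conj_re, Complex.conj_im, Complex.one_re, Complex.one_im]
    ring
  have h2 : 0 ≤ (1 - ‖z‖ ^ 2) * (1 - ‖w‖ ^ 2) := by
    have hz0 := norm_nonneg z
    have hw0 := norm_nonneg w
    apply mul_nonneg <;> nlinarith
  have h3 : ‖z - w‖ ^ 2 ≤ ‖1 - conj z * w‖ ^ 2 := by linarith
  exact (pow_le_pow_iff_left₀ (norm_nonneg _) (norm_nonneg _) two_ne_zero).1 h3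

theorem BL_deriv {z w : ℂ} (hz : ‖z‖ < 1) (hw : ‖w‖ < 1) :
    HasDerivAt (fun w => 1 - ((1 - ‖z‖ ^ 2 : ℝ) : ℂ) / (1 - conj z * w))
      (-(((1 - ‖z‖ ^ 2 : ℝ) : ℂ) * conj z / (1 - conj z * w) ^ 2)) w := by
  have h := BL_ne hz hw
  have h1 : HasDerivAt (fun w => 1 - conj z * w) (-conj z) w := by
    have := ((hasDerivAt_id w).const_mul (conj z)).const_sub 1
    simpa using this
  have h2 := ((h1.inv h).const_mul ((1 - ‖z‖ ^ 2 : ℝ) : ℂ)).const_sub 1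
  refine (h2.congr_deriv ?_).congr_of_eventuallyEq ?_
  · field_simp
  · exact Eventually.of_forall fun w => by
      show 1 - ((1 - ‖z‖ ^ 2 : ℝ) : ℂ) / (1 - conj z * w) = _
      rw [div_eq_mul_inv]
      rfl

theorem t_BL (hBLP : S_BLP) : S_BL := by
  intro z hz hz0 hsum
  have hu : Summable (fun n => 2 * (1 - ‖z n‖)) := hsum.mul_left 2
  have hle : ∀ n, 1 - ‖z n‖ ^ 2 ≤ 2 * (1 - ‖z n‖) := by
    intro n
    have h1 := norm_nonneg (z n)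
    have h2 := hz n
    nlinarith
  have hnn : ∀ n, 0 ≤ 1 - ‖z n‖ ^ 2 := by
    intro n
    have h1 := norm_nonneg (z n)
    have h2 := hz n
    nlinarith
  have hs : ∀ w : ℂ, ‖w‖ < 1 → Summable (fun n => (1 - ‖z n‖ ^ 2) / ‖1 - conj (z n) * w‖ ^ 2) := by
    intro w hw
    refine Summable.of_nonneg_of_le (fun n => div_nonneg (hnn n) (sq_nonneg _)) (fun n => ?_)
      (hu.mul_right (((1 - ‖w‖) ^ 2)⁻¹))
    have h1 := BL_den (hz n) hw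
    have h2 : 0 < 1 - ‖w‖ := by linarith
    rw [← div_eq_mul_inv]
    have h3 : (1 - ‖w‖) ^ 2 ≤ ‖1 - conj (z n) * w‖ ^ 2 := pow_le_pow_left₀ h2.le h1 2
    exact div_le_div₀ ((hnn n).trans (hle n)) (hle n) (by positivity) h3
  have hd : ∀ n, ∀ w : ℂ, ‖w‖ < 1 →
      ‖deriv (fun w => 1 - ((1 - ‖z n‖ ^ 2 : ℝ) : ℂ) / (1 - conj (z n) * w)) w‖ ≤
        (1 - ‖z n‖ ^ 2) / ‖1 - conj (z n) * w‖ ^ 2 := by
    intro n w hw
    rw [(BL_deriv (hz n) hw).deriv, norm_neg, norm_div, norm_mul, norm_pow, Complex.norm_real,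
      Real.norm_eq_abs, abs_of_nonneg (hnn n), RCLike.norm_conj]
    refine div_le_div_of_nonneg_right ?_ (sq_nonneg _)
    have h1 := hnn n
    have h2 := (hz n).le
    nlinarith
  have hsd : ∀ w : ℂ, ‖w‖ < 1 → Summable (fun n =>
      ‖deriv (fun w => 1 - ((1 - ‖z n‖ ^ 2 : ℝ) : ℂ) / (1 - conj (z n) * w)) w‖) := fun w hw =>
    Summable.of_nonneg_of_le (fun n => norm_nonneg _) (fun n => hd n w hw) (hs w hw)
  have k1 : ∀ n, DifferentiableOn ℂ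
      (fun w => 1 - ((1 - ‖z n‖ ^ 2 : ℝ) : ℂ) / (1 - conj (z n) * w)) (Metric.ball 0 1) := by
    intro n w hw
    exact (BL_deriv (hz n) (mem_ball_zero_iff.1 hw)).differentiableAt.differentiableWithinAt
  have k2 : ∀ n, ∀ w ∈ Metric.ball (0 : ℂ) 1,
      ‖1 - ((1 - ‖z n‖ ^ 2 : ℝ) : ℂ) / (1 - conj (z n) * w)‖ ≤ 1 := by
    intro n w hw
    have hw' := mem_ball_zero_iff.1 hw
    rw [BL_fac (hz n) hw', norm_mul, RCLike.norm_conj, norm_div]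
    have h1 : ‖z n - w‖ / ‖1 - conj (z n) * w‖ ≤ 1 :=
      div_le_one_of_le₀ (BL_le (hz n) hw') (norm_nonneg _)
    exact mul_le_one₀ (hz n).le (div_nonneg (norm_nonneg _) (norm_nonneg _)) h1
  have k3 : ∀ n, 1 - ((1 - ‖z n‖ ^ 2 : ℝ) : ℂ) / (1 - conj (z n) * 0) ≠ 0 := by
    intro n
    rw [BL_fac (hz n) (by simp)]
    rw [mul_zero, sub_zero, sub_zero, div_one]
    exact mul_ne_zero ((map_ne_zero _).2 (hz0 n)) (hz0 n)
  have k4 : ∀ n, ∀ w ∈ Metric.ball (0 : ℂ) 1,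
      ‖1 - ((1 - ‖z n‖ ^ 2 : ℝ) : ℂ) / (1 - conj (z n) * w) - 1‖ ≤ 2 * (1 - ‖z n‖) / (1 - ‖w‖) := by
    intro n w hw
    have hw' := mem_ball_zero_iff.1 hw
    have h1 := BL_den (hz n) hw'
    rw [show (1 : ℂ) - ((1 - ‖z n‖ ^ 2 : ℝ) : ℂ) / (1 - conj (z n) * w) - 1 =
      -(((1 - ‖z n‖ ^ 2 : ℝ) : ℂ) / (1 - conj (z n) * w)) by ring, norm_neg, norm_div,
      Complex.norm_real, Real.norm_eq_abs, abs_of_nonneg (hnn n)]
    exact div_le_div₀ ((hnn n).trans (hle n)) (hle n) (by linarith) h1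
  have k5 : ∀ w ∈ Metric.ball (0 : ℂ) 1, Summable (fun n =>
      ‖deriv (fun w => 1 - ((1 - ‖z n‖ ^ 2 : ℝ) : ℂ) / (1 - conj (z n) * w)) w‖) := fun w hw =>
    hsd w (mem_ball_zero_iff.1 hw)
  obtain ⟨G, g1, g2, g3, g4, g5⟩ := hBLP
    (fun n w => 1 - ((1 - ‖z n‖ ^ 2 : ℝ) : ℂ) / (1 - conj (z n) * w)) (fun n => 2 * (1 - ‖z n‖))
    k1 k2 k3 hu k4 k5
  refine ⟨G, g1, g2, fun n => ?_, g4, fun w hw => ⟨hs w (mem_ball_zero_iff.1 hw), ?_⟩⟩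
  · refine g3 n (z n) (mem_ball_zero_iff.2 (hz n)) ?_
    show 1 - ((1 - ‖z n‖ ^ 2 : ℝ) : ℂ) / (1 - conj (z n) * z n) = 0
    rw [BL_fac (hz n) (hz n), sub_self, zero_div, mul_zero]
  · have hw' := mem_ball_zero_iff.1 hw
    exact (g5 w hw).trans (Summable.tsum_le_tsum (fun n => hd n w hw') (hsd w hw') (hs w hw'))

end Pool.Agent.H212.CS
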