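import Pool.Agent.H212.CS.Stm

set_option autoImplicit false

open Complex Set Filter Topology
open scoped ComplexConjugate

namespace Pool.Agent.H212.CS

theorem CAY_ne {z0 : ℂ} (h : ‖z0‖ < 1) : 1 - z0 ≠ 0 := by
  intro h1
  have h2 : z0 = 1 := (sub_eq_zero.1 h1).symm
  rw [h2, norm_one] at h
  exact lt_irrefl _ h

theorem CAY_neI {ζ : ℂ} (h : 0 < ζ.im) : ζ + I ≠ 0 := by
  intro h1
  have h2 := congrArg Complex.im h1
  rw [add_im, I_im, zero_im] at h2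
  linarith

theorem CAY_im {z0 : ℂ} (h : ‖z0‖ < 1) : (cay z0).im = (1 - ‖z0‖ ^ 2) / ‖1 - z0‖ ^ 2 := by
  have h1 : Complex.normSq (1 - z0) ≠ 0 := by
    rw [Ne, Complex.normSq_eq_zero]
    exact CAY_ne h
  unfold cay
  rw [Complex.div_im, ← Complex.normSq_eq_norm_sq, ← Complex.normSq_eq_norm_sq, div_sub_div_same]
  congr 1
  rw [Complex.normSq_apply]
  simp only [mul_im, mul_re, I_re, I_im, add_re, add_im, one_re, one_im, sub_re, sub_im]
  ring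

theorem CAY_pos {z0 : ℂ} (h : ‖z0‖ < 1) : 0 < (cay z0).im := by
  rw [CAY_im h]
  have h1 : 0 < ‖1 - z0‖ := norm_pos_iff.2 (CAY_ne h)
  have h2 : ‖z0‖ ^ 2 < 1 := by
    have := norm_nonneg z0
    nlinarith
  have h3 : 0 < 1 - ‖z0‖ ^ 2 := by linarith
  positivity

theorem CAY_addI {z0 : ℂ} (h : ‖z0‖ < 1) : cay z0 + I = 2 * I / (1 - z0) := by
  have h1 := CAY_ne h
  unfold cay
  field_simp
  ring

theorem CAY_le {z0 : ℂ} (h : ‖z0‖ < 1) : (cay z0).im / (1 + ‖cay z0‖) ^ 2 ≤ 1 - ‖z0‖ := by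
  have h1 : 0 < ‖1 - z0‖ := norm_pos_iff.2 (CAY_ne h)
  have h2 : 2 / ‖1 - z0‖ ≤ 1 + ‖cay z0‖ := by
    have h3 : ‖cay z0 + I‖ = 2 / ‖1 - z0‖ := by
      rw [CAY_addI h, norm_div, norm_mul, norm_I, mul_one, Complex.norm_two]
    rw [← h3]
    refine (norm_add_le _ _).trans ?_
    rw [norm_I, add_comm]
  have h4 : (2 / ‖1 - z0‖) ^ 2 ≤ (1 + ‖cay z0‖) ^ 2 := pow_le_pow_left₀ (by positivity) h2 2
  have h5 : 0 < (2 / ‖1 - z0‖) ^ 2 := by positivity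
  have h6 := CAY_pos h
  calc (cay z0).im / (1 + ‖cay z0‖) ^ 2 ≤ (cay z0).im / (2 / ‖1 - z0‖) ^ 2 :=
        div_le_div_of_nonneg_left h6.le h5 h4
    _ = (1 - ‖z0‖ ^ 2) / 4 := by
        rw [CAY_im h]
        field_simp
        ring
    _ ≤ 1 - ‖z0‖ := by
        have h7 := norm_nonneg z0
        nlinarith

theorem CAY_deriv {z0 : ℂ} (h : ‖z0‖ < 1) : HasDerivAt cay (2 * I / (1 - z0) ^ 2) z0 := by
  have h1 := CAY_ne h
  have h2 : HasDerivAt (fun z : ℂ => I * (1 + z)) (I * 1) z0 :=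
    ((hasDerivAt_id z0).const_add 1).const_mul I
  have h3 : HasDerivAt (fun z : ℂ => 1 - z) (-1) z0 := (hasDerivAt_id z0).const_sub 1
  have h4 := h2.div h3 h1
  have h5 : (I * 1 * (1 - z0) - I * (1 + z0) * -1) / (1 - z0) ^ 2 = 2 * I / (1 - z0) ^ 2 := by
    congr 1
    ring
  rw [h5] at h4
  exact h4

theorem CAY_yac_deriv {ζ : ℂ} (h : 0 < ζ.im) : HasDerivAt yac (2 * I / (ζ + I) ^ 2) ζ := by
  have h1 := CAY_neI h
  have h2 : HasDerivAt (fun z : ℂ => z - I) 1 ζ := (hasDerivAt_id ζ).sub_const I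
  have h3 : HasDerivAt (fun z : ℂ => z + I) 1 ζ := (hasDerivAt_id ζ).add_const I
  have h4 := h2.div h3 h1
  have h5 : (1 * (ζ + I) - (ζ - I) * 1) / (ζ + I) ^ 2 = 2 * I / (ζ + I) ^ 2 := by
    congr 1
    ring
  rw [h5] at h4
  exact h4

theorem CAY_yac_cay {z0 : ℂ} (h : ‖z0‖ < 1) : yac (cay z0) = z0 := by
  have h1 := CAY_ne h
  have h2 : cay z0 + I ≠ 0 := CAY_neI (CAY_pos h)
  unfold yac
  rw [div_eq_iff h2, CAY_addI h]
  unfold cay
  field_simp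
  ring

theorem CAY_cay_yac {ζ : ℂ} (h : 0 < ζ.im) : cay (yac ζ) = ζ := by
  have h1 := CAY_neI h
  have h2 : 1 - yac ζ = 2 * I / (ζ + I) := by
    unfold yac
    field_simp
    ring
  have h3 : 1 + yac ζ = 2 * ζ / (ζ + I) := by
    unfold yac
    field_simp
    ring
  unfold cay
  rw [h2, h3]
  have h4 : I ≠ 0 := I_ne_zero
  field_simp

theorem CAY_yac_lt {ζ : ℂ} (h : 0 < ζ.im) : ‖yac ζ‖ < 1 := by
  have h1 := CAY_neI h
  have h2 : 0 < ‖ζ + I‖ := norm_pos_iff.2 h1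
  unfold yac
  rw [norm_div, div_lt_one h2]
  have h3 : ‖ζ - I‖ ^ 2 < ‖ζ + I‖ ^ 2 := by
    rw [← Complex.normSq_eq_norm_sq, ← Complex.normSq_eq_norm_sq, Complex.normSq_apply,
      Complex.normSq_apply]
    simp only [sub_re, sub_im, add_re, add_im, I_re, I_im]
    nlinarith
  exact lt_of_pow_lt_pow_left₀ 2 h2.le h3

theorem CAY_conj (z0 : ℂ) : conj (cay z0) = -(I * (1 + conj z0)) / (1 - conj z0) := by
  unfold cay
  rw [map_div₀, map_mul, conj_I, map_add, map_sub, map_one]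
  ring

theorem CAY_key {z0 ζ : ℂ} (h0 : ‖z0‖ < 1) (h : 0 < ζ.im) :
    1 - conj z0 * yac ζ = (1 - conj z0) * (ζ - conj (cay z0)) / (ζ + I) := by
  have h1 := CAY_neI h
  have h2 : 1 - conj z0 ≠ 0 := by
    apply CAY_ne
    rw [Complex.norm_conj]
    exact h0
  rw [CAY_conj]
  unfold yac
  field_simp
  ring

theorem t_CAY : S_CAY := by
  refine ⟨fun z0 h => ⟨CAY_pos h, CAY_yac_cay h, CAY_deriv h, CAY_le h⟩,
    fun ζ h => ⟨CAY_yac_lt h, CAY_cay_yac h, CAY_yac_deriv h⟩, fun z0 ζ h0 h => ?_⟩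
  have h1 : 0 < ‖ζ + I‖ := norm_pos_iff.2 (CAY_neI h)
  have h2 : 0 < ‖1 - z0‖ := norm_pos_iff.2 (CAY_ne h0)
  have h3 : 0 < ‖ζ - conj (cay z0)‖ := by
    apply norm_pos_iff.2
    intro h4
    have h5 := congrArg Complex.im h4
    rw [sub_im, conj_im, zero_im] at h5
    have h6 := CAY_pos h0
    linarith
  have h4 : ‖1 - conj z0‖ = ‖1 - z0‖ := by
    have h5 : (1 : ℂ) - conj z0 = conj (1 - z0) := by
      rw [map_sub, map_one]
    rw [h5, Complex.norm_conj]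
  rw [CAY_key h0 h, norm_div, norm_mul, h4, CAY_im h0]
  field_simp

end Pool.Agent.H212.CS
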