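import Pool.Agent.H212.CS.Stm

open Complex Set Filter Topology
open scoped ComplexConjugate

namespace Pool.Agent.H212.CS

theorem CONV_open_HP (y : ℝ) : IsOpen {ζ : ℂ | y < ζ.im} :=
  isOpen_lt continuous_const Complex.continuous_im

theorem CONV_strict {h h' : ℂ → ℂ} (hd : ∀ ζ ∈ HP, HasDerivAt h (h' ζ) ζ) {ζ : ℂ} (hζ : ζ ∈ HP) :
    HasStrictDerivAt h (h' ζ) ζ := by
  have h1 : DifferentiableOn ℂ h HP := fun z hz => (hd z hz).differentiableAt.differentiableWithinAt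
  have h2 : AnalyticAt ℂ h ζ := h1.analyticAt ((CONV_open_HP 0).mem_nhds hζ)
  have h3 := h2.hasStrictDerivAt
  rwa [(hd ζ hζ).deriv] at h3

theorem CONV_open {h h' : ℂ → ℂ} (hd : ∀ ζ ∈ HP, HasDerivAt h (h' ζ) ζ) (hne : ∀ ζ ∈ HP, h' ζ ≠ 0)
    {y : ℝ} (hy : 0 < y) : IsOpen (h '' {ζ : ℂ | y < ζ.im}) := by
  rw [isOpen_iff_mem_nhds]
  rintro _ ⟨ζ, hζ, rfl⟩
  have hζ' : ζ ∈ HP := lt_trans hy hζ
  rw [← (CONV_strict hd hζ').map_nhds_eq (hne ζ hζ'), Filter.mem_map]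
  exact Filter.mem_of_superset ((CONV_open_HP y).mem_nhds hζ) (subset_preimage_image _ _)

theorem t_CONV : S_CONV := by
  intro h h' hd hne _ hsup hprop y hy
  have hV : IsOpen (h '' {ζ : ℂ | y < ζ.im}) := CONV_open hd hne hy
  intro w1 hw1 w2 hw2 a b ha hb hab
  obtain ⟨w, hw⟩ : ∃ w : ℝ → ℂ, w = fun t : ℝ => w1 + (t : ℂ) * (w2 - w1) := ⟨_, rfl⟩
  have hwc : Continuous w := by
    rw [hw]
    exact continuous_const.add (Complex.continuous_ofReal.mul continuous_const)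
  obtain ⟨R, hR⟩ := hprop (‖w1‖ + ‖w2 - w1‖)
  obtain ⟨K, hK⟩ : ∃ K : Set ℂ, K = Metric.closedBall 0 R ∩ {ζ : ℂ | y ≤ ζ.im} := ⟨_, rfl⟩
  have hKc : IsCompact K := by
    rw [hK]
    exact (isCompact_closedBall 0 R).inter_right (isClosed_le continuous_const Complex.continuous_im)
  have hKH : ∀ ζ ∈ K, ζ ∈ HP := by
    intro ζ hζ
    rw [hK] at hζ
    exact lt_of_lt_of_le hy hζ.2
  have hcont : ContinuousOn h K := fun ζ hζ => (hd ζ (hKH ζ hζ)).continuousAt.continuousWithinAt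
  have hhK : IsClosed (h '' K) := (hKc.image_of_continuousOn hcont).isClosed
  have heq : (w ⁻¹' (h '' {ζ : ℂ | y < ζ.im})) ∩ Icc (0 : ℝ) 1 = (w ⁻¹' (h '' K)) ∩ Icc (0 : ℝ) 1 := by
    ext t
    constructor
    · rintro ⟨⟨ζ, hζ, hζw⟩, ht⟩
      refine ⟨⟨ζ, ?_, hζw⟩, ht⟩
      rw [hK]
      refine ⟨?_, (show y < ζ.im from hζ).le⟩
      rw [mem_closedBall_zero_iff]
      refine hR ζ (lt_trans hy hζ) ?_
      rw [hζw, hw]
      refine (norm_add_le _ _).trans ?_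
      refine add_le_add le_rfl ?_
      rw [norm_mul, Complex.norm_real, Real.norm_eq_abs, abs_of_nonneg ht.1]
      exact mul_le_of_le_one_left (norm_nonneg _) ht.2
    · rintro ⟨⟨ζ, hζ, hζw⟩, ht⟩
      have hζH := hKH ζ hζ
      rw [hK] at hζ
      refine ⟨⟨ζ, ?_, hζw⟩, ht⟩
      by_contra hlt
      have him : ζ.im = y := le_antisymm (not_lt.1 hlt) hζ.2
      obtain ⟨v, hv⟩ := hsup ζ hζH
      obtain ⟨z1, hz1, hz1w⟩ := hw1
      obtain ⟨z2, hz2, hz2w⟩ := hw2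
      have h1 := hv z1 (by rw [him]; exact hz1)
      have h2 := hv z2 (by rw [him]; exact hz2)
      rw [hz1w] at h1
      rw [hz2w] at h2
      have h3 : (w t - h ζ) * v = ((1 - t : ℝ) : ℂ) * ((w1 - h ζ) * v) + (t : ℂ) * ((w2 - h ζ) * v) := by
        rw [hw]
        push_cast
        ring
      have h4 : ((w t - h ζ) * v).im = (1 - t) * ((w1 - h ζ) * v).im + t * ((w2 - h ζ) * v).im := by
        rw [h3, Complex.add_im, Complex.im_ofReal_mul, Complex.im_ofReal_mul]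
      rw [← hζw, sub_self, zero_mul, Complex.zero_im] at h4
      rcases eq_or_lt_of_le ht.1 with h5 | h5
      · rw [← h5] at h4
        linarith
      · have h6 := mul_pos h5 h2
        have h7 := mul_nonneg (sub_nonneg.2 ht.2) h1.le
        linarith
  have hclosed : IsClosed ((w ⁻¹' (h '' {ζ : ℂ | y < ζ.im})) ∩ Icc (0 : ℝ) 1) := by
    rw [heq]
    exact (hhK.preimage hwc).inter isClosed_Icc
  have h0 : (0 : ℝ) ∈ w ⁻¹' (h '' {ζ : ℂ | y < ζ.im}) := by
    have e0 : w 0 = w1 := by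
      rw [hw]
      simp
    rw [mem_preimage, e0]
    exact hw1
  have hsub := hclosed.Icc_subset_of_forall_mem_nhdsWithin h0 (fun x hx =>
    mem_nhdsWithin_of_mem_nhds ((hV.preimage hwc).mem_nhds hx.1))
  have hb1 : b ∈ Icc (0 : ℝ) 1 := ⟨hb, by linarith⟩
  have h8 := hsub hb1
  have h9 : a • w1 + b • w2 = w b := by
    rw [hw, Complex.real_smul, Complex.real_smul]
    have : a = 1 - b := by linarith
    rw [this]
    push_cast
    ring
  rw [h9]
  exact h8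

end Pool.Agent.H212.CS
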