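import Pool.Agent.H212.CS.Stm

set_option autoImplicit false

open Complex Set Filter Topology
open scoped ComplexConjugate

namespace Pool.Agent.H212.CS

theorem t_CRIT (hNW : S_NW) (hPRIM : S_PRIM) (hSUP : S_SUP) (hPROP : S_PROP) (hCONV : S_CONV)
    (hCTC : S_CTC) : S_CRIT := by
  intro W f p hW him hmono hre hf hp
  obtain ⟨h, hh⟩ := hPRIM (fun ζ => Complex.exp (W ζ)) hW.cexp
  have hconv : Convex ℝ HP := convex_halfSpace_im_gt 0
  have hpos : ∀ w ∈ HP, 0 < (Complex.exp (W w)).re := by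
    intro w hw
    have h1 := abs_le.1 (him w hw)
    rw [Complex.exp_re]
    exact mul_pos (Real.exp_pos _) (Real.cos_pos_of_mem_Ioo
      ⟨by linarith [Real.pi_pos], by linarith [Real.pi_pos]⟩)
  have hinj : Set.InjOn h HP := hNW HP h (fun ζ => Complex.exp (W ζ)) hconv hh hpos
  have hsup : ∀ z0 ∈ HP, ∃ v : ℂ, ∀ z : ℂ, z0.im < z.im → 0 < ((h z - h z0) * v).im :=
    fun z0 hz0 => ⟨(Complex.exp (W z0))⁻¹, fun z hz => by
      rw [← div_eq_mul_inv]
      exact hSUP W h hh him hmono z0 z hz0 hz⟩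
  have hprop := hPROP W h hh him hre
  have hcv := hCONV h (fun ζ => Complex.exp (W ζ)) hh (fun ζ _ => Complex.exp_ne_zero _) hinj hsup
    hprop
  exact hCTC h (fun ζ => Complex.exp (W ζ)) f p hh (fun ζ _ => Complex.exp_ne_zero _) hinj hcv hf hp

end Pool.Agent.H212.CS
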