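import Mathlib

/-!
# MP_8199af_an : coincidence sequences of two univalent functions (project CS, helper212)

THEOREM. If `∑ log Λ_n / Λ_n < ∞`, `Λ_n = log (16 / (1 - |z_n|))`, then (whatever the arguments of the
points `z_n`) there are `f ≠ g` in the class `S` with `f(z_n) = g(z_n)` for all `n`.

Idea: work in the upper half plane.  `q = exp W`, `W = -∑ μ_n log(s_n/ρ_n)`, `s_n = -i(ζ - conj c_n)`, `ρ_n = 1+|c_n|`,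
`∑ μ_n ≤ 1/4`: the primitive `h` of `q` is univalent with convex image (unbounded convex domain with corners
near all the `c_n`).  `u = w² G(w)`, `G` Blaschke product with the zeros `z_n`, `w = (ζ-i)/(ζ+i)`.
`P = 6 + ∑ A_n s_n^{-(1-μ_n/2)}` satisfies `|u'| < |q| Re P`.  `f' = qP + u'`, `g' = qP - u'`: close-to-convex,
so univalent, and `f - g = 2u` vanishes at all the `z_n`.
-/

open Complex Set Filter Topology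
open scoped ComplexConjugate

namespace Pool.Agent.H212.CS

/-- the upper half plane -/
def HP : Set ℂ := {ζ | 0 < ζ.im}

/-- The half-plane kernel logarithm `log (s/ρ)`, `s = -i(ζ - conj c)`, `ρ = 1+|c|`. -/
noncomputable def Lk (c ζ : ℂ) : ℂ := Complex.log (-I * (ζ - conj c) / ((1 + ‖c‖ : ℝ) : ℂ))

/-- `W = -∑ μ_n Lk(c_n, ·)`. -/
noncomputable def Wf (c : ℕ → ℂ) (μ : ℕ → ℝ) (ζ : ℂ) : ℂ := -∑' n, (μ n : ℂ) * Lk (c n) ζ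

/-- The coefficient `A = 8 ρ^{1/4-m} y^{m/2} / m`. -/
noncomputable def Ak (c : ℂ) (m : ℝ) : ℝ := 8 * (1 + ‖c‖) ^ (1 / 4 - m) * c.im ^ (m / 2) / m

/-- The term `A s^{-(1-m/2)}`, `s = -i(ζ - conj c)`. -/
noncomputable def Pk (c : ℂ) (m : ℝ) (ζ : ℂ) : ℂ :=
  (Ak c m : ℂ) * (-I * (ζ - conj c)) ^ (-(1 - (m : ℂ) / 2))

/-- `P = 6 + ∑ Pk(c_n, μ_n, ·)`. -/
noncomputable def Pf (c : ℕ → ℂ) (μ : ℕ → ℝ) (ζ : ℂ) : ℂ := 6 + ∑' n, Pk (c n) (μ n) ζ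

/-- Cayley transform disc → half plane. -/
noncomputable def cay (z : ℂ) : ℂ := I * (1 + z) / (1 - z)

/-- Inverse Cayley transform half plane → disc. -/
noncomputable def yac (ζ : ℂ) : ℂ := (ζ - I) / (ζ + I)

/-- NW (Noshiro-Warschawski on a convex open set). Proof: for `a ≠ b` in `U` the real function
`t ↦ Re (F(a + t(b-a)) / (b-a))` on `[0,1]` has derivative `Re F'(a+t(b-a)) > 0`, so it is strictly increasing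
(`strictMonoOn_of_deriv_pos`), so `F a ≠ F b`. (`b - a ≠ 0`; the segment stays in `U` by convexity.) -/
def S_NW : Prop :=
  ∀ (U : Set ℂ) (F F' : ℂ → ℂ), Convex ℝ U → (∀ w ∈ U, HasDerivAt F (F' w) w) → (∀ w ∈ U, 0 < (F' w).re) →
    Set.InjOn F U

/-- PRIM: a holomorphic function on the half plane has a primitive. Proof: `Q z = q (cay z) * cay'(z)`,
`cay' z = 2I/(1-z)^2`, is holomorphic on `ball 0 1`, so it has a primitive `H` there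
(`DifferentiableOn.isExactOn_ball`, Mathlib.Analysis.Complex.HasPrimitives); put `h = H ∘ yac`;
`cay (yac ζ) = ζ`, `yac' ζ = 2I/(ζ+I)^2`, `cay'(yac ζ) * yac' ζ = 1`. -/
def S_PRIM : Prop :=
  ∀ q : ℂ → ℂ, DifferentiableOn ℂ q HP → ∃ h : ℂ → ℂ, ∀ ζ ∈ HP, HasDerivAt h (q ζ) ζ

/-- SUP (support lines). `h' = exp W`, `|Im W| ≤ π/8`, `Im W` nondecreasing on horizontal lines. For
`0 < Im z0 < Im z`:  `Im ((h z - h z0)/exp (W z0)) > 0`.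
Proof: let `k = h / exp (W z0)`, `k' ζ = exp (W ζ - W z0)`, `k(z) - k(z0) = [k(x + i y0) - k(x0 + i y0)] + [k(x+iy) - k(x+iy0)]`
(`z0 = x0 + i y0`, `z = x + i y`). Horizontal part: the derivative in `x` of `Im k(x + i y0)` is
`exp(Re ..) sin (Im W(x+iy0) - Im W(z0))`, `≥ 0` for `x ≥ x0` and `≤ 0` for `x ≤ x0` (the difference of the arguments lies in
`[-π/4, π/4]`), so `Im k(x+iy0) ≥ Im k(x0+iy0)` in both cases (monotone / antitone). Vertical part: the derivative in `y` of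
`Im k(x+iy)` is `Re k'(x + iy) = exp(Re ..) cos (..) > 0`, so strictly increasing. -/
def S_SUP : Prop :=
  ∀ (W h : ℂ → ℂ), (∀ ζ ∈ HP, HasDerivAt h (exp (W ζ)) ζ) → (∀ ζ ∈ HP, |(W ζ).im| ≤ Real.pi / 8) →
    (∀ y : ℝ, 0 < y → Monotone (fun x : ℝ => (W (x + y * I)).im)) →
    ∀ z0 z : ℂ, 0 < z0.im → z0.im < z.im → 0 < ((h z - h z0) / exp (W z0)).im

/-- PROP (properness). `h' = exp W`, `|Im W| ≤ π/8`, `Re W ≥ -(1/4) log (1+|ζ|)`. Then `h` is proper on `HP`.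
Proof: for `ζ ≠ I` in `HP` the function `t ↦ Re (h(I + t(ζ-I))/(ζ-I))` has derivative `Re exp(W(I+t(ζ-I)))
≥ cos(π/8) exp(Re W) ≥ (1/2) (1 + |I + t(ζ-I)|)^{-1/4} ≥ (1/2) (2 + ‖ζ - I‖)^{-1/4} ≥ (1/2) (2+‖ζ-I‖)^{-1/2}`,
so `‖h ζ - h I‖ ≥ ‖ζ-I‖ (1/2) (2+‖ζ-I‖)^{-1/2}`, which bounds `‖ζ - I‖` in terms of `‖h ζ - h I‖ ≤ M + ‖h I‖`. -/
def S_PROP : Prop :=
  ∀ (W h : ℂ → ℂ), (∀ ζ ∈ HP, HasDerivAt h (exp (W ζ)) ζ) → (∀ ζ ∈ HP, |(W ζ).im| ≤ Real.pi / 8) →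
    (∀ ζ ∈ HP, -(1 / 4) * Real.log (1 + ‖ζ‖) ≤ (W ζ).re) →
    ∀ M : ℝ, ∃ R : ℝ, ∀ ζ ∈ HP, ‖h ζ‖ ≤ M → ‖ζ‖ ≤ R

/-- CONV. `h` holomorphic injective on `HP`, with the support property and proper. Then the image of
`{y < Im ζ}` is convex, `y > 0`.
Proof: let `V = h '' {ζ | y < ζ.im}`, open (open mapping theorem: `h` is holomorphic and not constant near any point; or
`HasStrictDerivAt`/`AnalyticAt.eventually_constant_or_nhds_le_map_nhds`), `w1 = h z1`, `w2 = h z2` in `V`. Let `w(t) = w1 + t(w2-w1)`,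
`T = {t ∈ [0,1] | w t ∈ V}`: `0 ∈ T`, relatively open; relatively closed: if `t_j → t`, `w(t_j) = h(ζ_j)`, `Im ζ_j > y`, then the `ζ_j` are
bounded (properness, the `w(t_j)` are bounded), a subsequence converges to `ζ` with `Im ζ ≥ y > 0`, and `h ζ = w t`. If `Im ζ > y` we are done.
If `Im ζ = y`, let `v` be the support functional of `z0 = ζ`: `Im ((h z_i - h ζ) v) > 0` for `i = 1, 2`, so
`0 < (1-t) Im ((w1 - h ζ)v) + t Im ((w2 - h ζ) v) = Im ((w t - h ζ) v) = 0`, a contradiction.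
So `T = [0,1]` (connectedness, `IsPreconnected`/`isPreconnected_Icc`). -/
def S_CONV : Prop :=
  ∀ (h h' : ℂ → ℂ), (∀ ζ ∈ HP, HasDerivAt h (h' ζ) ζ) → (∀ ζ ∈ HP, h' ζ ≠ 0) → Set.InjOn h HP →
    (∀ z0 ∈ HP, ∃ v : ℂ, ∀ z : ℂ, z0.im < z.im → 0 < ((h z - h z0) * v).im) →
    (∀ M : ℝ, ∃ R : ℝ, ∀ ζ ∈ HP, ‖h ζ‖ ≤ M → ‖ζ‖ ≤ R) →
    ∀ y : ℝ, 0 < y → Convex ℝ (h '' {ζ : ℂ | y < ζ.im})

/-- CTC (close-to-convex functions are univalent). Proof: let `f z1 = f z2`, `z1, z2 ∈ HP`, choose `0 < y < min Im`. On the convex set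
`V = h '' {y < Im}` (open) let `k` be the inverse of `h` (`Function.invFunOn`); `k` is differentiable at each `w = h ζ`
with derivative `(q ζ)⁻¹` (`HasDerivAt.of_local_left_inverse` needs continuity of `k`, or use `HasStrictDerivAt.localInverse`:
`h` is analytic near `ζ` with nonzero derivative, so it has a local inverse near `w` with values near `ζ`, and by injectivity it
coincides with `k` near `w`). `F = f ∘ k` has derivative `p (k w)` on `V`, positive real part, so it is injective on `V`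
(`S_NW`), so `h z1 = h z2`, so `z1 = z2`. -/
def S_CTC : Prop :=
  ∀ (h q f p : ℂ → ℂ), (∀ ζ ∈ HP, HasDerivAt h (q ζ) ζ) → (∀ ζ ∈ HP, q ζ ≠ 0) → Set.InjOn h HP →
    (∀ y : ℝ, 0 < y → Convex ℝ (h '' {ζ : ℂ | y < ζ.im})) →
    (∀ ζ ∈ HP, HasDerivAt f (q ζ * p ζ) ζ) → (∀ ζ ∈ HP, 0 < (p ζ).re) → Set.InjOn f HP

/-- CRIT (assembly; helper212). -/
def S_CRIT : Prop :=
  ∀ (W f p : ℂ → ℂ), DifferentiableOn ℂ W HP → (∀ ζ ∈ HP, |(W ζ).im| ≤ Real.pi / 8) →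
    (∀ y : ℝ, 0 < y → Monotone (fun x : ℝ => (W (x + y * I)).im)) →
    (∀ ζ ∈ HP, -(1 / 4) * Real.log (1 + ‖ζ‖) ≤ (W ζ).re) →
    (∀ ζ ∈ HP, HasDerivAt f (exp (W ζ) * p ζ) ζ) → (∀ ζ ∈ HP, 0 < (p ζ).re) → Set.InjOn f HP

/-- LB: basic bounds, `s/ρ`. Proof: `-I(ζ - conj c)` has real part `Im ζ + Im c > 0` and norm `‖ζ - conj c‖ ≥ Im ζ`.
Lower bound: `Im ζ (1+‖c‖) ≤ Im ζ (1 + ‖ζ‖ + ‖ζ-conj c‖) ≤ ‖ζ - conj c‖(1+‖ζ‖) + ‖ζ‖ ‖ζ - conj c‖ ≤ 2 (1+‖ζ‖) ‖ζ-conj c‖`.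
Upper bound: `‖ζ - conj c‖ ≤ ‖ζ‖ + ‖c‖ ≤ (1+‖ζ‖)(1+‖c‖)`. -/
def S_LB : Prop :=
  ∀ c ζ : ℂ, 0 < c.im → 0 < ζ.im →
    0 < (-I * (ζ - conj c)).re ∧ ‖-I * (ζ - conj c)‖ = ‖ζ - conj c‖ ∧ c.im ≤ ‖ζ - conj c‖ ∧
    ζ.im / (2 * (1 + ‖ζ‖)) ≤ ‖ζ - conj c‖ / (1 + ‖c‖) ∧ ‖ζ - conj c‖ / (1 + ‖c‖) ≤ 1 + ‖ζ‖ ∧
    1 + ‖ζ‖ ≤ (1 + ‖c‖) + ‖ζ - conj c‖ ∧
    |(Lk c ζ).im| ≤ Real.pi / 2 ∧ (Lk c ζ).re = Real.log (‖ζ - conj c‖ / (1 + ‖c‖)) ∧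
    ‖Lk c ζ‖ ≤ Real.log (1 + ‖ζ‖) + Real.log (2 * (1 + ‖ζ‖) / ζ.im) + Real.pi / 2

/-- WDIFF: locally uniform convergence (`differentiableOn_tsum_of_summable_norm` needs a global bound on an open set;
apply it on each ball `B(ζ0, Im ζ0/2)` where by `S_LB` `‖μ_n Lk‖ ≤ C μ_n`). Each `Lk c` is differentiable on `HP` since
the argument of the log has positive real part. -/
def S_WDIFF : Prop :=
  ∀ (c : ℕ → ℂ) (μ : ℕ → ℝ), (∀ n, 0 < (c n).im) → (∀ n, 0 < μ n) → Summable μ →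
    DifferentiableOn ℂ (Wf c μ) HP ∧ ∀ ζ ∈ HP, Summable (fun n => (μ n : ℂ) * Lk (c n) ζ)

/-- WIM: `|Im W| ≤ ∑ μ_n π/2 ≤ π/8`, and monotonicity on horizontals: `Im Lk(c, x+iy) = arg(s)`, `s = (y + Im c) - i(x - Re c)`
(division by `ρ > 0` does not change the argument), antitone in `x` (`arg s = arctan(-(x - Re c)/(y+Im c))` for `Re s > 0`, or
`arg = arcsin (im/norm)`, or derivative `-Re(1/s) < 0`). Sum termwise (`tsum_le_tsum`, with `Complex.im_tsum`/`hasSum_im`). -/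
def S_WIM : Prop :=
  ∀ (c : ℕ → ℂ) (μ : ℕ → ℝ), (∀ n, 0 < (c n).im) → (∀ n, 0 < μ n) → Summable μ → ∑' n, μ n ≤ 1 / 4 →
    (∀ ζ ∈ HP, |(Wf c μ ζ).im| ≤ Real.pi / 8) ∧
    (∀ y : ℝ, 0 < y → Monotone (fun x : ℝ => (Wf c μ (x + y * I)).im))

/-- WRE: `Re W = -∑ μ_k log(|s_k|/ρ_k)`, `log(|s_k|/ρ_k) ≤ log(1+‖ζ‖)` for every `k` (`S_LB`), and `∑ μ_k ≤ 1/4`.
For the second bound use this for `k ≠ n` only (`tsum_eq_add_tsum_ite` / `Summable.sum_add_tsum_compl`). -/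
def S_WRE : Prop :=
  ∀ (c : ℕ → ℂ) (μ : ℕ → ℝ), (∀ n, 0 < (c n).im) → (∀ n, 0 < μ n) → Summable μ → ∑' n, μ n ≤ 1 / 4 →
    (∀ ζ ∈ HP, -(1 / 4) * Real.log (1 + ‖ζ‖) ≤ (Wf c μ ζ).re) ∧
    (∀ ζ ∈ HP, ∀ n, -(1 / 4) * Real.log (1 + ‖ζ‖) - μ n * Real.log (‖ζ - conj (c n)‖ / (1 + ‖c n‖)) ≤ (Wf c μ ζ).re)

/-- PTERM (lower bound of one term). With `s = ‖ζ - conj c‖ ≥ y = Im c`, `ρ = 1+‖c‖ ≥ y`, `ρ ≥ 1`, `1+‖ζ‖ ≤ ρ + s`: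
`2 y s^{-2} (1+‖ζ‖)^{1/4} (s/ρ)^m ≤ 2 y s^{m-2} ρ^{-m} (ρ^{1/4} + s^{1/4})` and
`s^{m-2} = s^{-(1-m/2)} s^{-(1-m/2)} ≤ s^{-(1-m/2)} y^{-(1-m/2)}`, `s^{m-7/4} = s^{-(1-m/2)} s^{-(3/4-m/2)} ≤ s^{-(1-m/2)} y^{-(3/4-m/2)}`,
so it is `≤ 2 ρ^{-m} y^{m/2} (ρ^{1/4} + y^{1/4}) s^{-(1-m/2)} ≤ 4 ρ^{1/4-m} y^{m/2} s^{-(1-m/2)}`.
And `Re (S^{-(1-m/2)}) = s^{-(1-m/2)} cos((1-m/2) arg S)`, `S = -I(ζ - conj c)`, `|arg S| < π/2`, `≥ s^{-(1-m/2)} cos((1-m/2)π/2)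
= s^{-(1-m/2)} sin(mπ/4) ≥ s^{-(1-m/2)} m/2` (`Real.mul_le_sin`: `(2/π) x ≤ sin x`). `A = 8 ρ^{1/4-m} y^{m/2}/m`.
(`Complex.cpow_def`, `Complex.log`, `abs_cpow`..: `S^{-(1-m/2)} = exp(-(1-m/2) (log|S| + i arg S))`.) -/
def S_PTERM : Prop :=
  ∀ (c ζ : ℂ) (m : ℝ), 0 < c.im → 0 < ζ.im → 0 < m → m ≤ 1 / 4 →
    2 * c.im / ‖ζ - conj c‖ ^ 2 * ((1 + ‖ζ‖) ^ (1 / 4 : ℝ) * (‖ζ - conj c‖ / (1 + ‖c‖)) ^ m) ≤ (Pk c m ζ).re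

/-- PUP (upper bound of one term). `‖Pk c m ζ‖ = A s^{-(1-m/2)}`, `s ≥ κ ρ`, `κ = Im ζ/(2(1+‖ζ‖)) ≤ 1` (`S_LB`), so
`s^{-(1-m/2)} ≤ κ^{-(1-m/2)} ρ^{-(1-m/2)} ≤ κ^{-1} ρ^{-(1-m/2)}`, and
`A ρ^{-(1-m/2)} = 8 ρ^{-3/4-m/2} y^{m/2}/m = 8 ρ^{-3/4+m/2} (y/ρ²)^{m/2}/m ≤ 8 (y/ρ²)^{m/2}/m`. -/
def S_PUP : Prop :=
  ∀ (c ζ : ℂ) (m : ℝ), 0 < c.im → 0 < ζ.im → 0 < m → m ≤ 1 / 4 →
    ‖Pk c m ζ‖ ≤ (2 * (1 + ‖ζ‖) / ζ.im) * (8 * ((c.im / (1 + ‖c‖) ^ 2) ^ (m / 2) / m))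

/-- PDIFF: locally uniform convergence by `S_PUP` (as in `S_WDIFF`, on balls `B(ζ0, Im ζ0/2)`). -/
def S_PDIFF : Prop :=
  ∀ (c : ℕ → ℂ) (μ : ℕ → ℝ), (∀ n, 0 < (c n).im) → (∀ n, 0 < μ n) → (∀ n, μ n ≤ 1 / 4) →
    Summable (fun n => ((c n).im / (1 + ‖c n‖) ^ 2) ^ (μ n / 2) / μ n) →
    DifferentiableOn ℂ (Pf c μ) HP ∧ ∀ ζ ∈ HP, Summable (fun n => Pk (c n) (μ n) ζ)

/-- BL (Blaschke product). `F_n(w) = 1 - (1-|z_n|²)/(1 - conj z_n w) = conj z_n (z_n - w)/(1 - conj z_n w)`, `|F_n| ≤ |z_n| ≤ 1` on the disc,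
`F_n' = -(1-|z_n|²) conj z_n/(1 - conj z_n w)²`. `G = ∏ F_n` converges locally uniformly
(`∑ |1 - F_n| ≤ ∑ (1-|z_n|²)/(1-|w|) < ∞`; `hasProdLocallyUniformlyOn`, `Complex.HasProdLocallyUniformlyOn...` or
`HasProdUniformlyOn_of_...`; tendsto locally uniformly of the partial products), so `G` is holomorphic, `|G| ≤ 1`, `G(z_n) = 0`,
`G 0 = ∏ |z_n|² ≠ 0` (`∑ (1 - |z_n|²) < ∞`, all `z_n ≠ 0`: `tprod_one_add_ne_zero_of_summable` or `Complex.cexp_tsum_eq_tprod`), and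
`|G'| ≤ ∑ |F_n'| ≤ ∑ (1-|z_n|²)/|1 - conj z_n w|²`: for the partial products `|(∏_{k<N} F_k)'| ≤ ∑_{k<N} |F_k'|` as all `|F_k| ≤ 1`
(induction on `N`), then let `N → ∞` (`TendstoLocallyUniformlyOn.deriv`). -/
def S_BL : Prop :=
  ∀ z : ℕ → ℂ, (∀ n, ‖z n‖ < 1) → (∀ n, z n ≠ 0) → Summable (fun n => 1 - ‖z n‖) →
    ∃ G : ℂ → ℂ, DifferentiableOn ℂ G (Metric.ball 0 1) ∧ (∀ w ∈ Metric.ball (0 : ℂ) 1, ‖G w‖ ≤ 1) ∧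
      (∀ n, G (z n) = 0) ∧ G 0 ≠ 0 ∧
      ∀ w ∈ Metric.ball (0 : ℂ) 1, Summable (fun n => (1 - ‖z n‖ ^ 2) / ‖1 - conj (z n) * w‖ ^ 2) ∧
        ‖deriv G w‖ ≤ ∑' n, (1 - ‖z n‖ ^ 2) / ‖1 - conj (z n) * w‖ ^ 2

/-- CAY: facts on the Cayley transforms. `c = cay z0`: `Im c = (1-|z0|²)/|1-z0|²`, `c + I = 2I/(1-z0)`, `conj c - I = ...`,
`1 - conj z0 w = -2I(ζ - conj c)/((conj c - I)(ζ+I))` for `w = yac ζ`; `|conj c - I| = |c + I| = 2/|1-z0|`. So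
`|1 - conj z0 w| = |1-z0| |ζ - conj c|/|ζ+I|`, and `(2/|ζ+I|²)(1-|z0|²)/|1 - conj z0 w|² = 2 Im c/|ζ - conj c|²`.
`|c+I| ≤ 1+|c|` so `Im c/(1+|c|)² ≤ Im c/|c+I|² = (1-|z0|²)/4 ≤ 1-|z0|`. -/
def S_CAY : Prop :=
  (∀ z0 : ℂ, ‖z0‖ < 1 → 0 < (cay z0).im ∧ yac (cay z0) = z0 ∧ HasDerivAt cay (2 * I / (1 - z0) ^ 2) z0 ∧
      (cay z0).im / (1 + ‖cay z0‖) ^ 2 ≤ 1 - ‖z0‖) ∧
  (∀ ζ : ℂ, 0 < ζ.im → ‖yac ζ‖ < 1 ∧ cay (yac ζ) = ζ ∧ HasDerivAt yac (2 * I / (ζ + I) ^ 2) ζ) ∧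
  (∀ z0 ζ : ℂ, ‖z0‖ < 1 → 0 < ζ.im →
      2 / ‖ζ + I‖ ^ 2 * ((1 - ‖z0‖ ^ 2) / ‖1 - conj z0 * yac ζ‖ ^ 2) = 2 * (cay z0).im / ‖ζ - conj (cay z0)‖ ^ 2)

/-- BLP (abstract infinite product). `|F_n| ≤ 1`, `∑ |F_n - 1| < ∞` locally uniformly. `G w = ∏' n, F n w`; the partial products converge locally
uniformly on the disc (on `ball 0 r`, `‖F n w - 1‖ ≤ u n/(1-r)`; `Summable.hasProdLocallyUniformlyOn_...`, or the Cauchy criterion directly: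
`|∏_{k<M} - ∏_{k<N}| ≤ ∑_{N≤k<M} |F_k - 1|` since all `|F_k| ≤ 1` -- this makes it elementary: the partial products are uniformly Cauchy).
`G 0 ≠ 0`: `∏' ≠ 0` (`tprod_one_add_ne_zero_of_summable`), or: choose `N` with `∑_{k ≥ N} u k ≤ 1/2`, the tail product at `0` is within `1/2` of `1`.
`‖deriv G w‖ ≤ ∑' ‖deriv (F n) w‖`: for partial products by induction (product rule and `|F_k| ≤ 1`), then `TendstoLocallyUniformlyOn.deriv`. -/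
def S_BLP : Prop :=
  ∀ (F : ℕ → ℂ → ℂ) (u : ℕ → ℝ), (∀ n, DifferentiableOn ℂ (F n) (Metric.ball 0 1)) →
    (∀ n, ∀ w ∈ Metric.ball (0 : ℂ) 1, ‖F n w‖ ≤ 1) → (∀ n, F n 0 ≠ 0) → Summable u →
    (∀ n, ∀ w ∈ Metric.ball (0 : ℂ) 1, ‖F n w - 1‖ ≤ u n / (1 - ‖w‖)) →
    (∀ w ∈ Metric.ball (0 : ℂ) 1, Summable (fun n => ‖deriv (F n) w‖)) →
    ∃ G : ℂ → ℂ, DifferentiableOn ℂ G (Metric.ball 0 1) ∧ (∀ w ∈ Metric.ball (0 : ℂ) 1, ‖G w‖ ≤ 1) ∧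
      (∀ n, ∀ w ∈ Metric.ball (0 : ℂ) 1, F n w = 0 → G w = 0) ∧ G 0 ≠ 0 ∧
      ∀ w ∈ Metric.ball (0 : ℂ) 1, ‖deriv G w‖ ≤ ∑' n, ‖deriv (F n) w‖

/-- DOM1 (the real-variable domination). `1/|q| = exp(-Re W) ≤ (1+|ζ|)^{1/4}` and for each `n`
`1/|q| ≤ (1+|ζ|)^{1/4} (|ζ-conj c_n|/(1+|c_n|))^{μ_n}` (`S_WRE`), `S_PTERM`, and `4 (1+|ζ|)^{1/4}/|ζ+I|² ≤ 5` since
`|ζ+I|² = |ζ|²+2 Im ζ+1 ≥ 1+|ζ|²`, `4(1+x)^{1/4} ≤ 4(1+x) ≤ 5(1+x²)`. `Re P = 6 + ∑ Re Pk` (`Complex.hasSum_re`). -/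
def S_DOM1 : Prop :=
  ∀ (c : ℕ → ℂ) (μ : ℕ → ℝ), (∀ n, 0 < (c n).im) → (∀ n, 0 < μ n) → (∀ n, μ n ≤ 1 / 4) → Summable μ →
    ∑' n, μ n ≤ 1 / 4 →
    Summable (fun n => ((c n).im / (1 + ‖c n‖) ^ 2) ^ (μ n / 2) / μ n) →
    ∀ ζ ∈ HP, Summable (fun n => 2 * (c n).im / ‖ζ - conj (c n)‖ ^ 2) →
      4 / ‖ζ + I‖ ^ 2 + ∑' n, 2 * (c n).im / ‖ζ - conj (c n)‖ ^ 2 < ‖exp (Wf c μ ζ)‖ * (Pf c μ ζ).re

/-- DOM2 (derivative of `u = w² G(w)`, `w = yac ζ`): `u' = (2 w G + w² G'(w)) 2I/(ζ+I)²`, bound by `S_CAY`. -/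
def S_DOM2 : Prop :=
  ∀ (z : ℕ → ℂ) (G : ℂ → ℂ), (∀ n, ‖z n‖ < 1) →
    DifferentiableOn ℂ G (Metric.ball 0 1) → (∀ w ∈ Metric.ball (0 : ℂ) 1, ‖G w‖ ≤ 1) →
    (∀ w ∈ Metric.ball (0 : ℂ) 1, Summable (fun n => (1 - ‖z n‖ ^ 2) / ‖1 - conj (z n) * w‖ ^ 2) ∧
        ‖deriv G w‖ ≤ ∑' n, (1 - ‖z n‖ ^ 2) / ‖1 - conj (z n) * w‖ ^ 2) →
    ∃ u' : ℂ → ℂ, u' I = 0 ∧ (∀ ζ ∈ HP, HasDerivAt (fun ξ => yac ξ ^ 2 * G (yac ξ)) (u' ζ) ζ) ∧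
      ∀ ζ ∈ HP, Summable (fun n => 2 * (cay (z n)).im / ‖ζ - conj (cay (z n))‖ ^ 2) ∧
        ‖u' ζ‖ ≤ 4 / ‖ζ + I‖ ^ 2 + ∑' n, 2 * (cay (z n)).im / ‖ζ - conj (cay (z n))‖ ^ 2

/-- HALF: the pair on the half plane. `c_n = cay z_n`, `W = Wf c μ`, `P = Pf c μ`, `u = yac² G(yac)`, `u'` from `S_DOM2`, `Q` a primitive of
`exp W * P` on `HP` (`S_PRIM`, `S_WDIFF`, `S_PDIFF`). `f1 = Q + u`, `g1 = Q - u`, with derivatives `exp W (P ± u'/exp W)` and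
`Re (P ± u'/exp W) ≥ Re P - |u'|/|exp W| > 0` (`S_DOM1`), so both injective (`S_CRIT` with `S_WIM`, `S_WRE`).
`κ = exp(W I) P(I)` (`u'(I) = 0`), `Re P > 0` so `κ ≠ 0`. -/
def S_HALF : Prop :=
  ∀ (z : ℕ → ℂ) (μ : ℕ → ℝ) (G : ℂ → ℂ), (∀ n, ‖z n‖ < 1) → (∀ n, 0 < μ n) → (∀ n, μ n ≤ 1 / 4) → Summable μ →
    ∑' n, μ n ≤ 1 / 4 →
    Summable (fun n => (((cay (z n)).im) / (1 + ‖cay (z n)‖) ^ 2) ^ (μ n / 2) / μ n) →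
    DifferentiableOn ℂ G (Metric.ball 0 1) → (∀ w ∈ Metric.ball (0 : ℂ) 1, ‖G w‖ ≤ 1) →
    (∀ w ∈ Metric.ball (0 : ℂ) 1, Summable (fun n => (1 - ‖z n‖ ^ 2) / ‖1 - conj (z n) * w‖ ^ 2) ∧
        ‖deriv G w‖ ≤ ∑' n, (1 - ‖z n‖ ^ 2) / ‖1 - conj (z n) * w‖ ^ 2) →
    ∃ (f1 g1 : ℂ → ℂ) (κ : ℂ), DifferentiableOn ℂ f1 HP ∧ DifferentiableOn ℂ g1 HP ∧ Set.InjOn f1 HP ∧ Set.InjOn g1 HP ∧
      κ ≠ 0 ∧ HasDerivAt f1 κ I ∧ HasDerivAt g1 κ I ∧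
      ∀ ζ ∈ HP, f1 ζ - g1 ζ = 2 * (yac ζ ^ 2 * G (yac ζ))

/-- The class `S`. -/
def ClassS (f : ℂ → ℂ) : Prop :=
  DifferentiableOn ℂ f (Metric.ball 0 1) ∧ Set.InjOn f (Metric.ball 0 1) ∧ f 0 = 0 ∧ deriv f 0 = 1

/-- Coincidence sequence for `S` (distinctness of the points is not needed here). -/
def Coin (z : ℕ → ℂ) : Prop :=
  ∃ f g : ℂ → ℂ, ClassS f ∧ ClassS g ∧ (∃ w ∈ Metric.ball (0 : ℂ) 1, f w ≠ g w) ∧ ∀ n, f (z n) = g (z n)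

/-- MAIN0 (from `S_HALF`, `S_BL`, `S_CAY`; the middle part of the text below is `S_HALF`): all `z_n ≠ 0`, `∑ μ_n ≤ 1/4`, `∑ (1-|z_n|)^{μ_n/2}/μ_n < ∞`.
Proof: `W = Wf c μ`, `P = Pf c μ`, `c_n = cay z_n`, `G` from `S_BL` (`∑(1-|z_n|) < ∞` follows from `(1-|z|) ≤ (1-|z|)^{μ/2}/μ`),
`u = yac² G(yac)`, `u'` from `S_DOM`. Let `Q` be a primitive of `exp W * P` on `HP` (`S_PRIM`). `f1 = Q + u`, `g1 = Q - u` on `HP`, with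
derivatives `exp W (P ± u'/exp W)` and `Re (P ± u'/exp W) ≥ Re P - |u'|/|exp W| > 0`, so both injective (`S_CRIT`).
`f2 = f1 ∘ cay`, `g2 = g1 ∘ cay` on the disc: injective, `f2 - g2 = 2 w² G(w)`. `κ = f2'(0) = g2'(0) = exp(W I) P(I) 2I ≠ 0` (`u'(I) = 0`
because `w² G` has derivative 0 at 0; simplest: differentiate `w²G(w)` at 0). `f = (f2 - f2(0))/κ`, `g = (g2 - g2(0))/κ` (`f2 0 = g2 0`).
`f - g = 2 w² G(w)/κ` is nonzero at some `w ≠ 0` near `0` (`G 0 ≠ 0`, continuity) and vanishes at every `z_n`. -/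
def S_MAIN0 : Prop :=
  ∀ (z : ℕ → ℂ) (μ : ℕ → ℝ), (∀ n, ‖z n‖ < 1) → (∀ n, z n ≠ 0) → (∀ n, 0 < μ n) → Summable μ → ∑' n, μ n ≤ 1 / 4 →
    Summable (fun n => (1 - ‖z n‖) ^ (μ n / 2) / μ n) → Coin z

/-- MAIN1: reduction. Given `m_n > 0`, `∑ m_n < ∞`, `∑ (1-|z_n|)^{m_n}/m_n < ∞`. Replace the `z_n` that are `0` by `1/2`
(`z'_n`, with `|z'_n| < 1`; `f 0 = g 0 = 0` anyway; the terms with `z_n = 0` are `1/m_n`, and `(1/2)^{..}/m_n ≤ 1/m_n`). Choose `N ≥ 1` with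
`∑_{n ≥ N} 2 m_n ≤ 1/8` and put `μ_n = 2 m_n` for `n ≥ N`, `μ_n = 1/(8N)` for `n < N`. Then `∑ μ_n ≤ 1/4`, and
`(1-|z_n|)^{μ_n/2}/μ_n` is summable (equal to `(1/2)(1-|z_n|)^{m_n}/m_n` for `n ≥ N`). Apply MAIN0. -/
def S_MAIN1 : Prop :=
  ∀ (z : ℕ → ℂ) (m : ℕ → ℝ), (∀ n, ‖z n‖ < 1) → (∀ n, 0 < m n) → Summable m →
    Summable (fun n => (1 - ‖z n‖) ^ (m n) / m n) → Coin z

/-- LOG: the choice `m_n = 2 log Λ_n/Λ_n`, `Λ_n = log (16/(1-|z_n|)) ≥ log 16 > e` (so `log Λ_n > 1`).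
`(1-|z_n|)^{m} = exp(-m (Λ - log 16)) = Λ^{-2} exp (m log 16) ≤ Λ^{-2} 16^{m}`, `m ≤ 1` (`2 log Λ ≤ Λ` for `Λ > 0`: as `2/e < 1`), so
`(1-|z|)^m/m ≤ 16 Λ^{-2} Λ/(2 log Λ) ≤ 8/(Λ log Λ) ≤ 8 log Λ/Λ`. -/
def S_LOG : Prop :=
  ∀ r : ℝ, 0 < r → r ≤ 1 →
    0 < 2 * Real.log (Real.log (16 / r)) / Real.log (16 / r) ∧
    r ^ (2 * Real.log (Real.log (16 / r)) / Real.log (16 / r)) / (2 * Real.log (Real.log (16 / r)) / Real.log (16 / r)) ≤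
      8 * (Real.log (Real.log (16 / r)) / Real.log (16 / r))

end Pool.Agent.H212.CS
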