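import Mathlib
import Pool.Agent.H212.CS.Stm

set_option autoImplicit false

/-!
# Close-to-convex functions are univalent (helper977 for helper212, project CS)
-/

open Complex Set Filter Topology
open scoped ComplexConjugate

namespace Pool.Agent.H212.CS

theorem CTC_open : IsOpen HP := isOpen_lt continuous_const Complex.continuous_im

theorem CTC_inv (h q : ℂ → ℂ) (hh : ∀ ζ ∈ HP, HasDerivAt h (q ζ) ζ) (hq : ∀ ζ ∈ HP, q ζ ≠ 0)
    (k : ℂ → ℂ) (hk : ∀ ζ ∈ HP, k (h ζ) = ζ) : ∀ ζ ∈ HP, HasDerivAt k (q ζ)⁻¹ (h ζ) := by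
  intro ζ hζ
  have hn : HP ∈ 𝓝 ζ := CTC_open.mem_nhds hζ
  have hd : DifferentiableOn ℂ h HP := fun x hx => (hh x hx).differentiableAt.differentiableWithinAt
  have hs : HasStrictDerivAt h (q ζ) ζ := by
    have h1 := (hd.analyticAt hn).hasStrictDerivAt
    rwa [(hh ζ hζ).deriv] at h1
  have hmap : map h (𝓝 ζ) = 𝓝 (h ζ) := hs.map_nhds_eq (hq ζ hζ)
  have hc : ContinuousAt k (h ζ) := by
    show Tendsto k (𝓝 (h ζ)) (𝓝 (k (h ζ)))
    rw [← hmap, hk ζ hζ, tendsto_map'_iff]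
    refine tendsto_id.congr' ?_
    filter_upwards [hn] with x hx
    exact (hk x hx).symm
  have hl : ∀ᶠ y in 𝓝 (h ζ), h (k y) = y := by
    rw [← hmap, eventually_map]
    filter_upwards [hn] with x hx
    rw [hk x hx]
  have hf : HasDerivAt h (q ζ) (k (h ζ)) := by
    rw [hk ζ hζ]
    exact hh ζ hζ
  exact HasDerivAt.of_local_left_inverse hc hf (hq ζ hζ) hl

theorem t_CTC (hNW : S_NW) : S_CTC := by
  intro h q f p hh hq hinj hconv hf hp z1 hz1 z2 hz2 heq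
  have hz1' : 0 < z1.im := hz1
  have hz2' : 0 < z2.im := hz2
  obtain ⟨y, hy⟩ : ∃ y : ℝ, y = min z1.im z2.im / 2 := ⟨_, rfl⟩
  have hmin : 0 < min z1.im z2.im := lt_min hz1' hz2'
  have hy0 : 0 < y := by rw [hy]; positivity
  have hy1 : y < z1.im := by
    rw [hy]
    linarith [min_le_left z1.im z2.im]
  have hy2 : y < z2.im := by
    rw [hy]
    linarith [min_le_right z1.im z2.im]
  obtain ⟨k, hkd⟩ : ∃ k : ℂ → ℂ, k = Function.invFunOn h HP := ⟨_, rfl⟩
  have hk : ∀ ζ ∈ HP, k (h ζ) = ζ := by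
    intro ζ hζ
    rw [hkd]
    exact hinj.leftInvOn_invFunOn hζ
  have hkder := CTC_inv h q hh hq k hk
  have hF : Set.InjOn (fun w => f (k w)) (h '' {ζ : ℂ | y < ζ.im}) := by
    refine hNW _ (fun w => f (k w)) (fun w => p (k w)) (hconv y hy0) ?_ ?_
    · rintro w ⟨ζ, hζ, rfl⟩
      have hζ' : y < ζ.im := hζ
      have hζH : ζ ∈ HP := hy0.trans hζ'
      have h1 : HasDerivAt f (q ζ * p ζ) (k (h ζ)) := by
        rw [hk ζ hζH]
        exact hf ζ hζH
      have h2 := h1.comp (h ζ) (hkder ζ hζH)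
      refine h2.congr_deriv ?_
      rw [hk ζ hζH]
      have h3 := hq ζ hζH
      field_simp
    · rintro w ⟨ζ, hζ, rfl⟩
      have hζ' : y < ζ.im := hζ
      have hζH : ζ ∈ HP := hy0.trans hζ'
      show 0 < (p (k (h ζ))).re
      rw [hk ζ hζH]
      exact hp ζ hζH
  have h1 : h z1 = h z2 := by
    refine hF ⟨z1, hy1, rfl⟩ ⟨z2, hy2, rfl⟩ ?_
    show f (k (h z1)) = f (k (h z2))
    rw [hk z1 hz1, hk z2 hz2]
    exact heq
  exact hinj hz1 hz2 h1

end Pool.Agent.H212.CS
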