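import Pool.Agent.H212.CS.Stm

/-! Project CS (helper212), task DOM1, by helper152. -/

open Complex Set Filter Topology
open scoped ComplexConjugate

namespace Pool.Agent.H212.CS

lemma DOM1_rpow (R x : ℝ) (hx : 0 ≤ x) (h : -(1 / 4) * Real.log (1 + x) ≤ R) :
    1 ≤ Real.exp R * (1 + x) ^ (1 / 4 : ℝ) := by
  rw [Real.rpow_def_of_pos (by linarith), ← Real.exp_add]
  exact Real.one_le_exp (by linarith)

lemma DOM1_rpow2 (R x t m : ℝ) (hx : 0 ≤ x) (ht : 0 < t)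
    (h : -(1 / 4) * Real.log (1 + x) - m * Real.log t ≤ R) :
    1 ≤ Real.exp R * ((1 + x) ^ (1 / 4 : ℝ) * t ^ m) := by
  rw [Real.rpow_def_of_pos (by linarith), Real.rpow_def_of_pos ht, ← Real.exp_add, ← Real.exp_add]
  exact Real.one_le_exp (by linarith)

lemma DOM1_first (E : ℝ) (ζ : ℂ) (hζ : 0 < ζ.im) (hE : 0 < E)
    (h : 1 ≤ E * (1 + ‖ζ‖) ^ (1 / 4 : ℝ)) : 4 / ‖ζ + I‖ ^ 2 ≤ 5 * E := by
  have hx : 0 ≤ ‖ζ‖ := norm_nonneg _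
  have h5 : 1 + ‖ζ‖ ^ 2 ≤ ‖ζ + I‖ ^ 2 := by
    rw [Complex.sq_norm, Complex.sq_norm, Complex.normSq_apply, Complex.normSq_apply,
      Complex.add_re, Complex.add_im, Complex.I_re, Complex.I_im]
    nlinarith
  have h6 : (1 + ‖ζ‖) ^ (1 / 4 : ℝ) ≤ 1 + ‖ζ‖ := by
    calc (1 + ‖ζ‖) ^ (1 / 4 : ℝ) ≤ (1 + ‖ζ‖) ^ (1 : ℝ) :=
          Real.rpow_le_rpow_of_exponent_le (by linarith) (by norm_num)
      _ = 1 + ‖ζ‖ := Real.rpow_one _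
  have h7 : 0 < ‖ζ + I‖ ^ 2 := by
    have := sq_nonneg ‖ζ‖
    linarith
  rw [div_le_iff₀ h7]
  have h8 : 1 ≤ E * (1 + ‖ζ‖) := h.trans (mul_le_mul_of_nonneg_left h6 hE.le)
  have h9 : E * (4 * (1 + ‖ζ‖)) ≤ E * (5 * ‖ζ + I‖ ^ 2) := by
    refine mul_le_mul_of_nonneg_left ?_ hE.le
    nlinarith [sq_nonneg (2 * ‖ζ‖ - 1), sq_nonneg ‖ζ‖]
  linarith

theorem t_DOM1 (hLB : S_LB) (hWRE : S_WRE) (hPTERM : S_PTERM) (hPDIFF : S_PDIFF) : S_DOM1 := by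
  intro c μ hc hμ hμ4 hs hs4 hsum ζ hζ hsm
  have hζ' : 0 < ζ.im := hζ
  obtain ⟨w1, w2⟩ := hWRE c μ hc hμ hs hs4
  obtain ⟨-, p2⟩ := hPDIFF c μ hc hμ hμ4 hsum
  have hP := p2 ζ hζ
  have hx : 0 ≤ ‖ζ‖ := norm_nonneg _
  obtain ⟨E, hE⟩ : ∃ E : ℝ, E = Real.exp (Wf c μ ζ).re := ⟨_, rfl⟩
  have hE0 : 0 < E := by rw [hE]; exact Real.exp_pos _
  have hnorm : ‖Complex.exp (Wf c μ ζ)‖ = E := by rw [hE]; exact Complex.norm_exp _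
  have h1 : 1 ≤ E * (1 + ‖ζ‖) ^ (1 / 4 : ℝ) := by
    rw [hE]
    exact DOM1_rpow _ _ hx (w1 ζ hζ)
  have hre : Summable (fun n => (Pk (c n) (μ n) ζ).re) := (Complex.hasSum_re hP.hasSum).summable
  have hPre : (Pf c μ ζ).re = 6 + ∑' n, (Pk (c n) (μ n) ζ).re := by
    unfold Pf
    rw [Complex.add_re, Complex.re_tsum hP]
    simp
  have h2 : ∀ n, 2 * (c n).im / ‖ζ - conj (c n)‖ ^ 2 ≤ E * (Pk (c n) (μ n) ζ).re := by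
    intro n
    obtain ⟨l1, l2, l3, l4, -⟩ := hLB (c n) ζ (hc n) hζ'
    have hs0 : 0 < ‖ζ - conj (c n)‖ := lt_of_lt_of_le (hc n) l3
    have ht : 0 < ‖ζ - conj (c n)‖ / (1 + ‖c n‖) := by positivity
    have h3 := DOM1_rpow2 _ _ _ (μ n) hx ht (w2 ζ hζ n)
    rw [← hE] at h3
    have h4 := hPTERM (c n) ζ (μ n) (hc n) hζ' (hμ n) (hμ4 n)
    have h5 : 0 ≤ 2 * (c n).im / ‖ζ - conj (c n)‖ ^ 2 := by
      have := hc n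
      positivity
    calc 2 * (c n).im / ‖ζ - conj (c n)‖ ^ 2
        ≤ 2 * (c n).im / ‖ζ - conj (c n)‖ ^ 2 *
          (E * ((1 + ‖ζ‖) ^ (1 / 4 : ℝ) * (‖ζ - conj (c n)‖ / (1 + ‖c n‖)) ^ μ n)) :=
          le_mul_of_one_le_right h5 h3
      _ = E * (2 * (c n).im / ‖ζ - conj (c n)‖ ^ 2 *
          ((1 + ‖ζ‖) ^ (1 / 4 : ℝ) * (‖ζ - conj (c n)‖ / (1 + ‖c n‖)) ^ μ n)) := by ring
      _ ≤ E * (Pk (c n) (μ n) ζ).re := mul_le_mul_of_nonneg_left h4 hE0.le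
  have h3 : ∑' n, 2 * (c n).im / ‖ζ - conj (c n)‖ ^ 2 ≤ E * ∑' n, (Pk (c n) (μ n) ζ).re := by
    rw [← tsum_mul_left]
    exact Summable.tsum_le_tsum h2 hsm (hre.mul_left E)
  have h4 := DOM1_first E ζ hζ' hE0 h1
  rw [hnorm, hPre]
  have h5 : E * (6 + ∑' n, (Pk (c n) (μ n) ζ).re) = 6 * E + E * ∑' n, (Pk (c n) (μ n) ζ).re := by
    ring
  rw [h5]
  linarith

end Pool.Agent.H212.CS
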