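import Pool.Agent.H212.CS.Stm

/-!
Project CS (helper212), piece DOM2: the derivative of `u = w² G(w)` (helper370).
-/

open Complex Set Filter Topology
open scoped ComplexConjugate

namespace Pool.Agent.H212.CS

theorem t_DOM2 (hCAY : S_CAY) : S_DOM2 := by
  intro z G hz hG hG1 hG'
  obtain ⟨-, hC2, hC3⟩ := hCAY
  refine ⟨fun ζ => (2 * yac ζ * G (yac ζ) + yac ζ ^ 2 * deriv G (yac ζ)) * (2 * I / (ζ + I) ^ 2),
    ?_, ?_, ?_⟩
  · have h0 : yac I = 0 := by simp [yac]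
    simp only [h0]
    ring
  · intro ζ hζ
    obtain ⟨h1, -, h2⟩ := hC2 ζ hζ
    have hb : yac ζ ∈ Metric.ball (0 : ℂ) 1 := by
      rw [mem_ball_zero_iff]
      exact h1
    have h3 : HasDerivAt G (deriv G (yac ζ)) (yac ζ) :=
      (hG.differentiableAt (Metric.isOpen_ball.mem_nhds hb)).hasDerivAt
    have h4 : HasDerivAt (fun ξ => G (yac ξ)) (deriv G (yac ζ) * (2 * I / (ζ + I) ^ 2)) ζ :=
      h3.comp ζ h2
    have h5 := (h2.pow 2).mul h4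
    refine h5.congr_deriv ?_
    simp only [Nat.cast_ofNat, Nat.add_one_sub_one, pow_one, Pi.pow_apply]
    ring
  · intro ζ hζ
    obtain ⟨h1, -, h2⟩ := hC2 ζ hζ
    have hb : yac ζ ∈ Metric.ball (0 : ℂ) 1 := by
      rw [mem_ball_zero_iff]
      exact h1
    obtain ⟨hs, hd⟩ := hG' (yac ζ) hb
    have h3 : (fun n => 2 * (cay (z n)).im / ‖ζ - conj (cay (z n))‖ ^ 2) =
        fun n => 2 / ‖ζ + I‖ ^ 2 * ((1 - ‖z n‖ ^ 2) / ‖1 - conj (z n) * yac ζ‖ ^ 2) :=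
      funext fun n => (hC3 (z n) ζ (hz n) hζ).symm
    refine ⟨by rw [h3]; exact hs.mul_left _, ?_⟩
    rw [h3, tsum_mul_left]
    have h4 : ‖2 * I / (ζ + I) ^ 2‖ = 2 / ‖ζ + I‖ ^ 2 := by
      rw [norm_div, norm_mul, Complex.norm_I, norm_pow, mul_one, Complex.norm_ofNat]
    have h5 : ‖2 * yac ζ * G (yac ζ) + yac ζ ^ 2 * deriv G (yac ζ)‖ ≤
        2 + ∑' n, (1 - ‖z n‖ ^ 2) / ‖1 - conj (z n) * yac ζ‖ ^ 2 := by
      have h6 : ‖2 * yac ζ * G (yac ζ)‖ ≤ 2 := by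
        rw [norm_mul, norm_mul, Complex.norm_ofNat]
        have := hG1 (yac ζ) hb
        have h7 := norm_nonneg (yac ζ)
        have h8 := norm_nonneg (G (yac ζ))
        nlinarith [mul_le_mul h1.le this h8 zero_le_one]
      have h7 : ‖yac ζ ^ 2 * deriv G (yac ζ)‖ ≤ ‖deriv G (yac ζ)‖ := by
        rw [norm_mul, norm_pow]
        have h8 : ‖yac ζ‖ ^ 2 ≤ 1 := pow_le_one₀ (norm_nonneg _) h1.le
        have h9 := mul_le_mul_of_nonneg_right h8 (norm_nonneg (deriv G (yac ζ)))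
        rwa [one_mul] at h9
      exact (norm_add_le _ _).trans (add_le_add h6 (h7.trans hd))
    show ‖(2 * yac ζ * G (yac ζ) + yac ζ ^ 2 * deriv G (yac ζ)) * (2 * I / (ζ + I) ^ 2)‖ ≤ _
    rw [norm_mul, h4]
    have h6 : 0 ≤ 2 / ‖ζ + I‖ ^ 2 := by positivity
    calc ‖2 * yac ζ * G (yac ζ) + yac ζ ^ 2 * deriv G (yac ζ)‖ * (2 / ‖ζ + I‖ ^ 2)
        ≤ (2 + ∑' n, (1 - ‖z n‖ ^ 2) / ‖1 - conj (z n) * yac ζ‖ ^ 2) * (2 / ‖ζ + I‖ ^ 2) :=
          mul_le_mul_of_nonneg_right h5 h6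
      _ = _ := by ring

end Pool.Agent.H212.CS
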