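import Pool.Agent.H212.CS.Stm

/-!
# HALF: the pair on the half plane
-/

open Complex Set Filter Topology
open scoped ComplexConjugate

namespace Pool.Agent.H212.CS

theorem HALF_pos (E P v : ℂ) (t : ℝ) (hE : E ≠ 0) (h1 : ‖v‖ ≤ t) (h2 : t < ‖E‖ * P.re) :
    0 < (P + v / E).re ∧ 0 < (P - v / E).re := by
  have hE' : 0 < ‖E‖ := norm_pos_iff.2 hE
  have h3 : ‖v / E‖ < P.re := by
    rw [norm_div, div_lt_iff₀ hE', mul_comm]
    exact h1.trans_lt h2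
  have h4 := Complex.abs_re_le_norm (v / E)
  have h5 := abs_le.1 (h4.trans h3.le)
  have h6 : |(v / E).re| < P.re := h4.trans_lt h3
  rw [abs_lt] at h6
  rw [Complex.add_re, Complex.sub_re]
  constructor
  · linarith [h6.1]
  · linarith [h6.2]

theorem t_HALF (hCRIT : S_CRIT) (hPRIM : S_PRIM) (hWDIFF : S_WDIFF) (hWIM : S_WIM)
    (hWRE : S_WRE) (hPDIFF : S_PDIFF) (hCAY : S_CAY) (hDOM1 : S_DOM1) (hDOM2 : S_DOM2) :
    S_HALF := by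
  intro z μ G hz hμ hμ4 hμs hμt hsum hGd hG1 hGder
  obtain ⟨c, hcdef⟩ : ∃ c : ℕ → ℂ, c = fun n => cay (z n) := ⟨_, rfl⟩
  have hcn : ∀ n, cay (z n) = c n := fun n => by rw [hcdef]
  have hc : ∀ n, 0 < (c n).im := fun n => by
    rw [hcdef]
    exact (hCAY.1 (z n) (hz n)).1
  simp only [hcn] at hsum
  have hW := (hWDIFF c μ hc hμ hμs).1
  have hP := (hPDIFF c μ hc hμ hμ4 hsum).1
  obtain ⟨hWim, hWmon⟩ := hWIM c μ hc hμ hμs hμt
  have hWre := (hWRE c μ hc hμ hμs hμt).1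
  obtain ⟨u', hu0, hu, hub⟩ := hDOM2 z G hz hGd hG1 hGder
  simp only [hcn] at hub
  obtain ⟨Q, hQ⟩ := hPRIM (fun ζ => exp (Wf c μ ζ) * Pf c μ ζ) (hW.cexp.mul hP)
  have hpos : ∀ ζ ∈ HP, 0 < (Pf c μ ζ + u' ζ / exp (Wf c μ ζ)).re ∧
      0 < (Pf c μ ζ - u' ζ / exp (Wf c μ ζ)).re := by
    intro ζ hζ
    obtain ⟨h1, h2⟩ := hub ζ hζ
    exact HALF_pos _ _ _ _ (Complex.exp_ne_zero _) h2
      (hDOM1 c μ hc hμ hμ4 hμs hμt hsum ζ hζ h1)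
  have hf : ∀ ζ ∈ HP, HasDerivAt (fun ξ => Q ξ + yac ξ ^ 2 * G (yac ξ))
      (exp (Wf c μ ζ) * (Pf c μ ζ + u' ζ / exp (Wf c μ ζ))) ζ := by
    intro ζ hζ
    refine ((hQ ζ hζ).add (hu ζ hζ)).congr_deriv ?_
    rw [mul_add, mul_div_cancel₀ _ (Complex.exp_ne_zero _)]
  have hg : ∀ ζ ∈ HP, HasDerivAt (fun ξ => Q ξ - yac ξ ^ 2 * G (yac ξ))
      (exp (Wf c μ ζ) * (Pf c μ ζ - u' ζ / exp (Wf c μ ζ))) ζ := by
    intro ζ hζ
    refine ((hQ ζ hζ).sub (hu ζ hζ)).congr_deriv ?_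
    rw [mul_sub, mul_div_cancel₀ _ (Complex.exp_ne_zero _)]
  have hI : I ∈ HP := by
    show 0 < I.im
    rw [Complex.I_im]
    exact one_pos
  refine ⟨fun ξ => Q ξ + yac ξ ^ 2 * G (yac ξ), fun ξ => Q ξ - yac ξ ^ 2 * G (yac ξ),
    exp (Wf c μ I) * Pf c μ I, fun ζ hζ => (hf ζ hζ).differentiableAt.differentiableWithinAt,
    fun ζ hζ => (hg ζ hζ).differentiableAt.differentiableWithinAt, ?_, ?_, ?_, ?_, ?_, ?_⟩
  · exact hCRIT (Wf c μ) _ _ hW hWim hWmon hWre hf fun ζ hζ => (hpos ζ hζ).1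
  · exact hCRIT (Wf c μ) _ _ hW hWim hWmon hWre hg fun ζ hζ => (hpos ζ hζ).2
  · refine mul_ne_zero (Complex.exp_ne_zero _) fun h => ?_
    have h1 := (hpos I hI).1
    rw [hu0, h, zero_div, add_zero, Complex.zero_re] at h1
    exact lt_irrefl _ h1
  · refine (hf I hI).congr_deriv ?_
    rw [hu0, zero_div, add_zero]
  · refine (hg I hI).congr_deriv ?_
    rw [hu0, zero_div, sub_zero]
  · intro ζ _
    ring

end Pool.Agent.H212.CS
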