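import Pool.Agent.H212.CS.Stm

open Complex Set Filter Topology
open scoped ComplexConjugate

namespace Pool.Agent.H212.CS

theorem LB_re (c ζ : ℂ) : (-I * (ζ - conj c)).re = ζ.im + c.im := by
  simp [Complex.mul_re]

theorem LB_norm (c ζ : ℂ) : ‖-I * (ζ - conj c)‖ = ‖ζ - conj c‖ := by
  rw [norm_mul, norm_neg, Complex.norm_I, one_mul]

theorem t_LB : S_LB := by
  intro c ζ hc hζ
  have hre := LB_re c ζ
  have hn := LB_norm c ζ
  have hρ : (0 : ℝ) < 1 + ‖c‖ := by positivity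
  have him : ζ.im + c.im ≤ ‖ζ - conj c‖ := by
    have h := Complex.im_le_norm (ζ - conj c)
    have h2 : (ζ - conj c).im = ζ.im + c.im := by simp
    rwa [h2] at h
  have hζn : ζ.im ≤ ‖ζ‖ := Complex.im_le_norm ζ
  have hcn : ‖conj c‖ = ‖c‖ := Complex.norm_conj c
  have htri1 : ‖ζ‖ ≤ ‖c‖ + ‖ζ - conj c‖ := by
    have h := norm_add_le (conj c) (ζ - conj c)
    rw [add_sub_cancel, hcn] at h
    exact h
  have htri2 : ‖ζ - conj c‖ ≤ ‖ζ‖ + ‖c‖ := by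
    have h := norm_sub_le ζ (conj c)
    rwa [hcn] at h
  have htri3 : ‖c‖ ≤ ‖ζ‖ + ‖ζ - conj c‖ := by
    have h := norm_sub_le ζ (ζ - conj c)
    rw [sub_sub_cancel, hcn] at h
    exact h
  have hζ0 : 0 ≤ ‖ζ‖ := norm_nonneg ζ
  have hc0 : 0 ≤ ‖c‖ := norm_nonneg c
  have hs0 : 0 < ‖ζ - conj c‖ := by linarith
  have hlow : ζ.im / (2 * (1 + ‖ζ‖)) ≤ ‖ζ - conj c‖ / (1 + ‖c‖) := by
    rw [div_le_div_iff₀ (by positivity) hρ]
    have h1 : ζ.im * (1 + ‖c‖) ≤ ζ.im * (1 + ‖ζ‖) + ζ.im * ‖ζ - conj c‖ := by nlinarith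
    have h2 : ζ.im * (1 + ‖ζ‖) ≤ ‖ζ - conj c‖ * (1 + ‖ζ‖) := by
      apply mul_le_mul_of_nonneg_right _ (by positivity)
      linarith
    have h3 : ζ.im * ‖ζ - conj c‖ ≤ ‖ζ‖ * ‖ζ - conj c‖ :=
      mul_le_mul_of_nonneg_right hζn hs0.le
    nlinarith
  have hup : ‖ζ - conj c‖ / (1 + ‖c‖) ≤ 1 + ‖ζ‖ := by
    rw [div_le_iff₀ hρ]
    nlinarith
  have ht0 : 0 < ‖ζ - conj c‖ / (1 + ‖c‖) := by positivity
  have harg : (-I * (ζ - conj c) / ((1 + ‖c‖ : ℝ) : ℂ)).re = (ζ.im + c.im) / (1 + ‖c‖) := by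
    rw [Complex.div_ofReal_re, hre]
  have hnm : ‖-I * (ζ - conj c) / ((1 + ‖c‖ : ℝ) : ℂ)‖ = ‖ζ - conj c‖ / (1 + ‖c‖) := by
    rw [norm_div, hn, Complex.norm_real, Real.norm_of_nonneg hρ.le]
  have hLre : (Lk c ζ).re = Real.log (‖ζ - conj c‖ / (1 + ‖c‖)) := by
    unfold Lk
    rw [Complex.log_re, hnm]
  have hLim : |(Lk c ζ).im| ≤ Real.pi / 2 := by
    unfold Lk
    rw [Complex.log_im, Complex.abs_arg_le_pi_div_two_iff, harg]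
    positivity
  refine ⟨by rw [hre]; positivity, hn, by linarith, hlow, hup, by linarith, hLim, hLre, ?_⟩
  have h1 := Complex.norm_le_abs_re_add_abs_im (Lk c ζ)
  have hl1 : 0 ≤ Real.log (1 + ‖ζ‖) := Real.log_nonneg (by linarith)
  have hq : 1 ≤ 2 * (1 + ‖ζ‖) / ζ.im := by
    rw [le_div_iff₀ hζ]
    linarith
  have hl2 : 0 ≤ Real.log (2 * (1 + ‖ζ‖) / ζ.im) := Real.log_nonneg hq
  have hl3 : Real.log (‖ζ - conj c‖ / (1 + ‖c‖)) ≤ Real.log (1 + ‖ζ‖) := Real.log_le_log ht0 hup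
  have hl4 : -Real.log (2 * (1 + ‖ζ‖) / ζ.im) ≤ Real.log (‖ζ - conj c‖ / (1 + ‖c‖)) := by
    rw [← Real.log_inv, inv_div]
    exact Real.log_le_log (by positivity) hlow
  have habs : |(Lk c ζ).re| ≤ Real.log (1 + ‖ζ‖) + Real.log (2 * (1 + ‖ζ‖) / ζ.im) := by
    rw [hLre, abs_le]
    constructor <;> linarith
  linarith

end Pool.Agent.H212.CS
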