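import Pool.Agent.H212.CS.Stm

/-! S_LOG (helper628 for helper212). -/

open Complex Set Filter Topology

namespace Pool.Agent.H212.CS

theorem LOG_log16 : Real.exp 1 < Real.log 16 := by
  have h1 : Real.log 16 = 4 * Real.log 2 := by
    rw [show (16 : ℝ) = 2 ^ 4 by norm_num, Real.log_pow]
    norm_num
  have h2 := Real.log_two_gt_d9
  have h3 := Real.exp_one_lt_d9
  rw [h1]
  linarith

theorem LOG_two {L : ℝ} (hL : 0 < L) : 2 * Real.log L ≤ L := by
  have h1 := Real.log_le_sub_one_of_pos (show 0 < L / 2 by positivity)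
  rw [Real.log_div hL.ne' (by norm_num)] at h1
  have h2 := Real.log_two_lt_d9
  linarith

theorem t_LOG : S_LOG := by
  intro r hr hr1
  obtain ⟨L, hL⟩ : ∃ L : ℝ, L = Real.log (16 / r) := ⟨_, rfl⟩
  rw [← hL]
  have hlr : Real.log r ≤ 0 := Real.log_nonpos hr.le hr1
  have hLe : L = Real.log 16 - Real.log r := by
    rw [hL, Real.log_div (by norm_num) hr.ne']
  have h16 := LOG_log16
  have hL16 : Real.exp 1 < L := by linarith
  have hL0 : 0 < L := (Real.exp_pos 1).trans hL16
  obtain ⟨M, hM⟩ : ∃ M : ℝ, M = Real.log L := ⟨_, rfl⟩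
  rw [← hM]
  have hM1 : 1 < M := by
    rw [hM]
    exact (Real.lt_log_iff_exp_lt hL0).2 hL16
  have hM2 : 2 * M ≤ L := by
    rw [hM]
    exact LOG_two hL0
  have hm0 : 0 < 2 * M / L := by positivity
  refine ⟨hm0, ?_⟩
  have hm1 : 2 * M / L ≤ 1 := by
    rw [div_le_one hL0]
    exact hM2
  have e1 : r ^ (2 * M / L) = Real.exp (Real.log 16 * (2 * M / L)) * Real.exp (-(2 * M)) := by
    rw [Real.rpow_def_of_pos hr, ← Real.exp_add]
    congr 1
    have : Real.log r = Real.log 16 - L := by linarith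
    rw [this]
    field_simp
    ring
  have e2 : Real.exp (-(2 * M)) = 1 / L ^ 2 := by
    rw [Real.exp_neg, two_mul, Real.exp_add, hM, Real.exp_log hL0]
    field_simp
  have e3 : Real.exp (Real.log 16 * (2 * M / L)) ≤ 16 := by
    have h1 : Real.log 16 * (2 * M / L) ≤ Real.log 16 := by
      have h0 : 0 ≤ Real.log 16 := ((Real.exp_pos 1).trans h16).le
      calc Real.log 16 * (2 * M / L) ≤ Real.log 16 * 1 := mul_le_mul_of_nonneg_left hm1 h0
        _ = _ := mul_one _
    calc Real.exp (Real.log 16 * (2 * M / L)) ≤ Real.exp (Real.log 16) := Real.exp_le_exp.2 h1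
      _ = 16 := Real.exp_log (by norm_num)
  rw [div_le_iff₀ hm0, e1, e2]
  have e4 : 8 * (M / L) * (2 * M / L) = 16 * (M * M) * (1 / L ^ 2) := by
    field_simp
    ring
  rw [e4]
  have e5 : (0 : ℝ) ≤ 1 / L ^ 2 := by positivity
  have e6 : Real.exp (Real.log 16 * (2 * M / L)) ≤ 16 * (M * M) := by nlinarith
  exact mul_le_mul_of_nonneg_right e6 e5

end Pool.Agent.H212.CS
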