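import Pool.Agent.H212.CS.Stm

open Complex Set Filter Topology
open scoped ComplexConjugate

namespace Pool.Agent.H212.CS

theorem MAIN0_isOpen_HP : IsOpen HP := by
  unfold HP
  exact isOpen_lt continuous_const Complex.continuous_im

theorem MAIN0_cay0 : cay 0 = I := by
  unfold cay
  simp

theorem MAIN0_le (t m : ℝ) (ht : 0 < t) (ht1 : t ≤ 1) (hm : 0 < m) (hm4 : m ≤ 1 / 4) :
    t ≤ t ^ (m / 2) / m := by
  have h1 : t ≤ t ^ (m / 2) := by
    have h := Real.rpow_le_rpow_of_exponent_ge ht ht1 (show m / 2 ≤ 1 by linarith)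
    rwa [Real.rpow_one] at h
  have h2 : 0 < t ^ (m / 2) := Real.rpow_pos_of_pos ht _
  rw [le_div_iff₀ hm]
  nlinarith

/-- the class `S` function obtained from an injective function on the half plane -/
theorem MAIN0_cls (hCAY : S_CAY) (f1 : ℂ → ℂ) (κ : ℂ) (hd : DifferentiableOn ℂ f1 HP)
    (hi : Set.InjOn f1 HP) (hκ : κ ≠ 0) (hf : HasDerivAt f1 κ I) :
    ClassS (fun z => (f1 (cay z) - f1 (cay 0)) / (κ * (2 * I))) := by
  obtain ⟨hC1, hC2, hC3⟩ := hCAY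
  have hK : κ * (2 * I) ≠ 0 := by simp [hκ]
  have hin : ∀ z ∈ Metric.ball (0 : ℂ) 1, ‖z‖ < 1 := fun z hz => by simpa using hz
  refine ⟨?_, ?_, ?_, ?_⟩
  · intro z hz
    obtain ⟨h1, h2, h3, h4⟩ := hC1 z (hin z hz)
    have h5 : DifferentiableAt ℂ f1 (cay z) :=
      (hd (cay z) h1).differentiableAt (MAIN0_isOpen_HP.mem_nhds h1)
    have h6 : DifferentiableAt ℂ (fun z => f1 (cay z)) z :=
      DifferentiableAt.comp z h5 h3.differentiableAt
    exact ((h6.sub_const _).div_const _).differentiableWithinAt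
  · intro x hx y hy hxy
    obtain ⟨h1, h2, h3, h4⟩ := hC1 x (hin x hx)
    obtain ⟨k1, k2, k3, k4⟩ := hC1 y (hin y hy)
    have h5 : (f1 (cay x) - f1 (cay 0)) / (κ * (2 * I)) =
      (f1 (cay y) - f1 (cay 0)) / (κ * (2 * I)) := hxy
    have h6 : f1 (cay x) - f1 (cay 0) = f1 (cay y) - f1 (cay 0) :=
      (div_left_inj' hK).1 h5
    have h7 : f1 (cay x) = f1 (cay y) := sub_left_inj.1 h6
    have h8 := hi h1 k1 h7
    rw [← h2, ← k2, h8]
  · show (f1 (cay 0) - f1 (cay 0)) / (κ * (2 * I)) = 0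
    simp
  · obtain ⟨h1, h2, h3, h4⟩ := hC1 0 (by simp)
    have hf' : HasDerivAt f1 κ (cay 0) := by rwa [MAIN0_cay0]
    have h5 : HasDerivAt (fun z => f1 (cay z)) (κ * (2 * I / (1 - 0) ^ 2)) 0 :=
      HasDerivAt.comp 0 hf' h3
    have h6 := (h5.sub_const (f1 (cay 0))).div_const (κ * (2 * I))
    rw [h6.deriv]
    rw [sub_zero, one_pow, div_one, div_self hK]

theorem t_MAIN0 (hBL : S_BL) (hCAY : S_CAY) (hHALF : S_HALF) : S_MAIN0 := by
  intro z μ hz1 hz0 hμ hsum hle hS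
  have hμ4 : ∀ n, μ n ≤ 1 / 4 := fun n =>
    (hsum.le_tsum n (fun j _ => (hμ j).le)).trans hle
  have ht : ∀ n, 0 < 1 - ‖z n‖ := fun n => sub_pos.2 (hz1 n)
  have ht1 : ∀ n, 1 - ‖z n‖ ≤ 1 := fun n => by
    have := norm_nonneg (z n)
    linarith
  have hs1 : Summable (fun n => 1 - ‖z n‖) :=
    Summable.of_nonneg_of_le (fun n => (ht n).le)
      (fun n => MAIN0_le _ _ (ht n) (ht1 n) (hμ n) (hμ4 n)) hS
  obtain ⟨G, hG1, hG2, hG3, hG4, hG5⟩ := hBL z hz1 hz0 hs1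
  have hs2 : Summable
      (fun n => (((cay (z n)).im) / (1 + ‖cay (z n)‖) ^ 2) ^ (μ n / 2) / μ n) := by
    refine Summable.of_nonneg_of_le (fun n => ?_) (fun n => ?_) hS
    · obtain ⟨h1, h2, h3, h4⟩ := hCAY.1 (z n) (hz1 n)
      exact div_nonneg (Real.rpow_nonneg (div_nonneg h1.le (by positivity)) _) (hμ n).le
    · obtain ⟨h1, h2, h3, h4⟩ := hCAY.1 (z n) (hz1 n)
      exact div_le_div_of_nonneg_right
        (Real.rpow_le_rpow (div_nonneg h1.le (by positivity)) h4 (by linarith [hμ n])) (hμ n).le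
  obtain ⟨f1, g1, κ, hf1, hg1, hfi, hgi, hκ, hfd, hgd, hfg⟩ :=
    hHALF z μ G hz1 hμ hμ4 hsum hle hs2 hG1 hG2 hG5
  have hK : κ * (2 * I) ≠ 0 := by simp [hκ]
  have hdiff : ∀ w : ℂ, ‖w‖ < 1 → (f1 (cay w) - f1 (cay 0)) / (κ * (2 * I)) -
      (g1 (cay w) - g1 (cay 0)) / (κ * (2 * I)) = 2 * (w ^ 2 * G w) / (κ * (2 * I)) := by
    intro w hw
    obtain ⟨h1, h2, h3, h4⟩ := hCAY.1 w hw
    obtain ⟨k1, k2, k3, k4⟩ := hCAY.1 0 (by simp)
    have e1 := hfg (cay w) h1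
    have e2 := hfg (cay 0) k1
    rw [h2] at e1
    rw [k2] at e2
    have e3 : f1 (cay 0) - g1 (cay 0) = 0 := by rw [e2]; ring
    rw [← sub_div]
    congr 1
    have e4 : f1 (cay w) - f1 (cay 0) - (g1 (cay w) - g1 (cay 0)) =
      (f1 (cay w) - g1 (cay w)) - (f1 (cay 0) - g1 (cay 0)) := by ring
    rw [e4, e1, e3, sub_zero]
  refine ⟨_, _, MAIN0_cls hCAY f1 κ hf1 hfi hκ hfd, MAIN0_cls hCAY g1 κ hg1 hgi hκ hgd, ?_, ?_⟩
  · have hc : ContinuousAt G 0 :=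
      ((hG1 0 (Metric.mem_ball_self one_pos)).differentiableAt
        (Metric.isOpen_ball.mem_nhds (Metric.mem_ball_self one_pos))).continuousAt
    have h1 : ∀ᶠ w in 𝓝[≠] (0 : ℂ), G w ≠ 0 :=
      (hc.eventually_ne hG4).filter_mono nhdsWithin_le_nhds
    have h2 : ∀ᶠ w in 𝓝[≠] (0 : ℂ), w ∈ Metric.ball (0 : ℂ) 1 :=
      nhdsWithin_le_nhds (Metric.ball_mem_nhds 0 one_pos)
    have h3 : ∀ᶠ w in 𝓝[≠] (0 : ℂ), w ≠ 0 := eventually_mem_nhdsWithin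
    obtain ⟨w, hw1, hw2, hw3⟩ := (h1.and (h2.and h3)).exists
    refine ⟨w, hw2, fun h => ?_⟩
    have h4 := hdiff w (by simpa using hw2)
    have h5 : (f1 (cay w) - f1 (cay 0)) / (κ * (2 * I)) =
      (g1 (cay w) - g1 (cay 0)) / (κ * (2 * I)) := h
    rw [h5, sub_self] at h4
    have h6 : 2 * (w ^ 2 * G w) / (κ * (2 * I)) ≠ 0 :=
      div_ne_zero (mul_ne_zero two_ne_zero (mul_ne_zero (pow_ne_zero 2 hw3) hw1)) hK
    exact h6 h4.symm
  · intro n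
    have h4 := hdiff (z n) (hz1 n)
    rw [hG3 n, mul_zero, mul_zero, zero_div] at h4
    exact sub_eq_zero.1 h4

end Pool.Agent.H212.CS
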