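import Pool.Agent.H212.CS.Stm

open Complex Set Filter Topology
open scoped ComplexConjugate

namespace Pool.Agent.H212.CS

theorem MAIN1_tail (m : ℕ → ℝ) : ∃ N : ℕ, ∑' n, m (n + N) < 1 / 16 := by
  have h := tendsto_sum_nat_add m
  exact ((tendsto_order.1 h).2 (1 / 16) (by norm_num)).exists

theorem MAIN1_term (w : ℂ) (t : ℝ) (ht : 0 < t) (hw : ‖w‖ < 1) :
    0 ≤ (1 - ‖(if w = 0 then (1 / 2 : ℂ) else w)‖) ^ ((2 * t) / 2) / (2 * t) ∧
    (1 - ‖(if w = 0 then (1 / 2 : ℂ) else w)‖) ^ ((2 * t) / 2) / (2 * t) ≤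
      (1 / 2) * ((1 - ‖w‖) ^ t / t) := by
  have e : (2 * t) / 2 = t := by ring
  rw [e]
  have e2 : (1 / 2) * ((1 - ‖w‖) ^ t / t) = (1 - ‖w‖) ^ t / (2 * t) := by
    field_simp
  rw [e2]
  have h2t : 0 < 2 * t := by linarith
  split_ifs with h
  · have h1 : ‖(1 / 2 : ℂ)‖ = 1 / 2 := by
      rw [norm_div, norm_one, Complex.norm_two]
    rw [h1, h, norm_zero]
    refine ⟨div_nonneg (Real.rpow_nonneg (by norm_num) _) h2t.le, ?_⟩
    apply div_le_div_of_nonneg_right _ h2t.le
    exact Real.rpow_le_rpow (by norm_num) (by norm_num) ht.le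
  · exact ⟨div_nonneg (Real.rpow_nonneg (by linarith) _) h2t.le, le_rfl⟩

theorem t_MAIN1 (hMAIN0 : S_MAIN0) : S_MAIN1 := by
  intro z m hz hm hsm hs
  obtain ⟨N, hN⟩ := MAIN1_tail m
  have hNpos : (0 : ℝ) < 8 * ((N : ℝ) + 1) := by positivity
  have hμs : Summable (fun n => if n < N then 1 / (8 * ((N : ℝ) + 1)) else 2 * m n) := by
    rw [← summable_nat_add_iff N]
    have e : (fun n => if n + N < N then 1 / (8 * ((N : ℝ) + 1)) else 2 * m (n + N)) =
        fun n => 2 * m (n + N) := by
      funext n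
      rw [if_neg (by omega)]
    rw [e]
    exact ((summable_nat_add_iff N).2 hsm).mul_left 2
  have hcoin : Coin (fun n => if z n = 0 then (1 / 2 : ℂ) else z n) := by
    refine hMAIN0 _ (fun n => if n < N then 1 / (8 * ((N : ℝ) + 1)) else 2 * m n) ?_ ?_ ?_ hμs ?_ ?_
    · intro n
      split_ifs with h
      · rw [norm_div, norm_one, Complex.norm_two]
        norm_num
      · exact hz n
    · intro n
      split_ifs with h
      · norm_num
      · exact h
    · intro n
      split_ifs with h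
      · positivity
      · have := hm n
        linarith
    · rw [← hμs.sum_add_tsum_nat_add N]
      have e1 : ∑ i ∈ Finset.range N, (if i < N then 1 / (8 * ((N : ℝ) + 1)) else 2 * m i) =
          N * (1 / (8 * ((N : ℝ) + 1))) := by
        rw [Finset.sum_congr rfl (fun i hi => if_pos (Finset.mem_range.1 hi)), Finset.sum_const,
          Finset.card_range, nsmul_eq_mul]
      have e2 : ∑' i, (if i + N < N then 1 / (8 * ((N : ℝ) + 1)) else 2 * m (i + N)) =
          2 * ∑' i, m (i + N) := by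
        rw [← tsum_mul_left]
        refine tsum_congr fun i => ?_
        rw [if_neg (by omega)]
      rw [e1, e2]
      have e3 : (N : ℝ) * (1 / (8 * ((N : ℝ) + 1))) ≤ 1 / 8 := by
        rw [mul_one_div, div_le_div_iff₀ hNpos (by norm_num)]
        nlinarith [(Nat.cast_nonneg N : (0 : ℝ) ≤ N)]
      linarith
    · rw [← summable_nat_add_iff N]
      have hs' : Summable (fun n => (1 / 2 : ℝ) *
          ((1 - ‖z (n + N)‖) ^ (m (n + N)) / m (n + N))) :=
        ((summable_nat_add_iff N).2 hs).mul_left (1 / 2)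
      refine Summable.of_nonneg_of_le (fun n => ?_) (fun n => ?_) hs'
      · skip
        rw [if_neg (show ¬ (n + N < N) by omega)]
        exact (MAIN1_term (z (n + N)) (m (n + N)) (hm _) (hz _)).1
      · skip
        rw [if_neg (show ¬ (n + N < N) by omega)]
        exact (MAIN1_term (z (n + N)) (m (n + N)) (hm _) (hz _)).2
  obtain ⟨f, g, hf, hg, hne, heq⟩ := hcoin
  refine ⟨f, g, hf, hg, hne, fun n => ?_⟩
  by_cases h : z n = 0
  · rw [h, hf.2.2.1, hg.2.2.1]
  · have h1 := heq n
    dsimp only at h1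
    rwa [if_neg h] at h1

end Pool.Agent.H212.CS
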