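import Pool.Agent.H212.CS.Stm

/-!
# PDIFF: differentiability of `P`
-/

open Complex Set Filter Topology
open scoped ComplexConjugate

namespace Pool.Agent.H212.CS

theorem PDIFF_diff (hLB : S_LB) (c : ℂ) (m : ℝ) (hc : 0 < c.im) (ζ : ℂ) (hζ : 0 < ζ.im) :
    DifferentiableAt ℂ (Pk c m) ζ := by
  unfold Pk
  have h1 : DifferentiableAt ℂ (fun ζ : ℂ => -I * (ζ - conj c)) ζ :=
    (differentiableAt_id.sub_const _).const_mul _
  have h2 : (-I * (ζ - conj c)) ∈ slitPlane := Or.inl (hLB c ζ hc hζ).1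
  exact (h1.cpow (differentiableAt_const _) h2).const_mul _

/-- PDIFF -/
theorem t_PDIFF (hLB : S_LB) (hPUP : S_PUP) : S_PDIFF := by
  intro c μ hc hμ hμ2 hs
  have hopen : IsOpen HP := isOpen_lt continuous_const Complex.continuous_im
  have hnn : ∀ n, 0 ≤ ((c n).im / (1 + ‖c n‖) ^ 2) ^ (μ n / 2) / μ n := by
    intro n
    have h1 := hc n
    have h2 := hμ n
    positivity
  constructor
  · intro ζ₀ hζ₀
    have h0 : 0 < ζ₀.im := hζ₀
    set r := ζ₀.im / 2 with hr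
    have hr0 : 0 < r := by linarith
    set K : ℝ := 2 * (1 + (‖ζ₀‖ + r)) / r with hK
    have hb : ∀ ζ ∈ Metric.ball ζ₀ r, r ≤ ζ.im ∧ ‖ζ‖ ≤ ‖ζ₀‖ + r := by
      intro ζ hζ
      rw [Metric.mem_ball, dist_eq_norm] at hζ
      have h1 : |(ζ - ζ₀).im| ≤ ‖ζ - ζ₀‖ := Complex.abs_im_le_norm _
      rw [Complex.sub_im] at h1
      have h2 := (abs_le.1 h1).1
      have h3 : ‖ζ‖ ≤ ‖ζ - ζ₀‖ + ‖ζ₀‖ := by
        have := norm_add_le (ζ - ζ₀) ζ₀
        rwa [sub_add_cancel] at this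
      constructor <;> linarith
    have h4 : DifferentiableOn ℂ (fun ζ => ∑' n, Pk (c n) (μ n) ζ) (Metric.ball ζ₀ r) := by
      refine differentiableOn_tsum_of_summable_norm
        (u := fun n => K * (8 * (((c n).im / (1 + ‖c n‖) ^ 2) ^ (μ n / 2) / μ n)))
        ((hs.mul_left 8).mul_left K) ?_ Metric.isOpen_ball ?_
      · intro n ζ hζ
        exact (PDIFF_diff hLB (c n) (μ n) (hc n) ζ
          (lt_of_lt_of_le hr0 (hb ζ hζ).1)).differentiableWithinAt
      · intro n ζ hζ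
        obtain ⟨h5, h6⟩ := hb ζ hζ
        have h7 : 0 < ζ.im := lt_of_lt_of_le hr0 h5
        refine (hPUP (c n) ζ (μ n) (hc n) h7 (hμ n) (hμ2 n)).trans ?_
        refine mul_le_mul_of_nonneg_right ?_ (mul_nonneg (by norm_num) (hnn n))
        have h8 := norm_nonneg ζ
        rw [hK]
        gcongr
    have h5 : DifferentiableAt ℂ (fun ζ => ∑' n, Pk (c n) (μ n) ζ) ζ₀ :=
      (h4 ζ₀ (Metric.mem_ball_self hr0)).differentiableAt (Metric.ball_mem_nhds ζ₀ hr0)
    have h6 : DifferentiableAt ℂ (Pf c μ) ζ₀ := by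
      unfold Pf
      exact (differentiableAt_const _).add h5
    exact h6.differentiableWithinAt
  · intro ζ hζ
    have h0 : 0 < ζ.im := hζ
    refine Summable.of_norm_bounded
      (g := fun n => (2 * (1 + ‖ζ‖) / ζ.im) *
        (8 * (((c n).im / (1 + ‖c n‖) ^ 2) ^ (μ n / 2) / μ n))) ((hs.mul_left 8).mul_left _) ?_
    intro n
    exact hPUP (c n) ζ (μ n) (hc n) h0 (hμ n) (hμ2 n)

end Pool.Agent.H212.CS
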