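import Pool.Agent.H212.CS.Stm

set_option autoImplicit false

open Complex Set Filter Topology
open scoped ComplexConjugate

namespace Pool.Agent.H212.CS

theorem PRIM_cay_mem {z : ℂ} (hz : z ∈ Metric.ball (0 : ℂ) 1) : 1 - z ≠ 0 ∧ cay z ∈ HP := by
  rw [mem_ball_zero_iff] at hz
  have h0 : 1 - z ≠ 0 := by
    intro h
    have : z = 1 := by linear_combination -h
    rw [this, norm_one] at hz
    exact lt_irrefl _ hz
  refine ⟨h0, ?_⟩
  have hN : 0 < normSq (1 - z) := normSq_pos.2 h0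
  have h1 : normSq z < 1 := by
    rw [normSq_eq_norm_sq]
    have := norm_nonneg z
    nlinarith
  show 0 < (cay z).im
  unfold cay
  rw [Complex.div_im, ← sub_div]
  apply div_pos _ hN
  rw [normSq_apply] at h1
  simp only [mul_im, mul_re, I_re, I_im, add_re, add_im, one_re, one_im, sub_re, sub_im]
  nlinarith

theorem PRIM_yac_mem {ζ : ℂ} (h : ζ ∈ HP) : ζ + I ≠ 0 ∧ yac ζ ∈ Metric.ball (0 : ℂ) 1 := by
  have hi : 0 < ζ.im := h
  have h0 : ζ + I ≠ 0 := by
    intro h
    have := congrArg Complex.im h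
    simp at this
    linarith
  refine ⟨h0, ?_⟩
  rw [mem_ball_zero_iff]
  unfold yac
  rw [norm_div, div_lt_one (norm_pos_iff.2 h0)]
  apply lt_of_pow_lt_pow_left₀ 2 (norm_nonneg _)
  rw [← normSq_eq_norm_sq, ← normSq_eq_norm_sq, normSq_apply, normSq_apply]
  simp only [add_re, add_im, sub_re, sub_im, I_re, I_im]
  nlinarith

theorem t_PRIM : S_PRIM := by
  intro q hq
  have hHPo : IsOpen HP := isOpen_lt continuous_const Complex.continuous_im
  have hcay : ∀ z ∈ Metric.ball (0 : ℂ) 1, HasDerivAt cay (2 * I / (1 - z) ^ 2) z := by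
    intro z hz
    obtain ⟨h0, -⟩ := PRIM_cay_mem hz
    have h1 : HasDerivAt (fun z : ℂ => I * (1 + z)) (I * 1) z :=
      ((hasDerivAt_id z).const_add 1).const_mul I
    have h2 : HasDerivAt (fun z : ℂ => 1 - z) (-1) z := by
      simpa using (hasDerivAt_id z).const_sub (1 : ℂ)
    have h3 := h1.div h2 h0
    have e : (I * 1 * (1 - z) - I * (1 + z) * -1) / (1 - z) ^ 2 = 2 * I / (1 - z) ^ 2 := by
      congr 1; ring
    rw [e] at h3
    exact h3
  have hQ : DifferentiableOn ℂ (fun z => q (cay z) * (2 * I / (1 - z) ^ 2)) (Metric.ball 0 1) := by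
    intro z hz
    obtain ⟨h0, h1⟩ := PRIM_cay_mem hz
    have h2 : DifferentiableAt ℂ q (cay z) := hq.differentiableAt (hHPo.mem_nhds h1)
    have h3 : DifferentiableAt ℂ (fun z => q (cay z)) z :=
      DifferentiableAt.comp z h2 (hcay z hz).differentiableAt
    have h4 : DifferentiableAt ℂ (fun z : ℂ => 2 * I / (1 - z) ^ 2) z := by
      apply DifferentiableAt.div (by fun_prop) (by fun_prop)
      exact pow_ne_zero 2 h0
    exact (h3.mul h4).differentiableWithinAt
  obtain ⟨H, hH⟩ := hQ.isExactOn_ball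
  refine ⟨fun ζ => H (yac ζ), fun ζ hζ => ?_⟩
  obtain ⟨h0, h1⟩ := PRIM_yac_mem hζ
  have hy : HasDerivAt yac (2 * I / (ζ + I) ^ 2) ζ := by
    have a1 : HasDerivAt (fun ζ : ℂ => ζ - I) 1 ζ := (hasDerivAt_id ζ).sub_const I
    have a2 : HasDerivAt (fun ζ : ℂ => ζ + I) 1 ζ := (hasDerivAt_id ζ).add_const I
    have a3 := a1.div a2 h0
    have e : (1 * (ζ + I) - (ζ - I) * 1) / (ζ + I) ^ 2 = 2 * I / (ζ + I) ^ 2 := by
      congr 1; ring
    rw [e] at a3
    exact a3
  have h2 := (hH _ h1).comp ζ hy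
  have e1 : 1 - yac ζ = 2 * I / (ζ + I) := by
    unfold yac
    field_simp
    ring
  have e2 : cay (yac ζ) = ζ := by
    unfold cay
    rw [e1]
    unfold yac
    have hI : (I : ℂ) ≠ 0 := I_ne_zero
    field_simp
    ring
  have e3 : q (cay (yac ζ)) * (2 * I / (1 - yac ζ) ^ 2) * (2 * I / (ζ + I) ^ 2) = q ζ := by
    rw [e2, e1]
    have hI : (I : ℂ) ≠ 0 := I_ne_zero
    field_simp
  rw [e3] at h2
  exact h2

end Pool.Agent.H212.CS
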