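import Pool.Agent.H212.CS.Stm

/-!
# PROP: properness of `h`
-/

open Complex Set Filter Topology
open scoped ComplexConjugate

namespace Pool.Agent.H212.CS

theorem PROP_cos {y : ℝ} (hy : |y| ≤ Real.pi / 8) : 1 / 2 ≤ Real.cos y := by
  rw [← Real.cos_abs, ← Real.cos_pi_div_three]
  apply Real.cos_le_cos_of_nonneg_of_le_pi (abs_nonneg y)
  · linarith [Real.pi_pos]
  · linarith [Real.pi_pos]

theorem PROP_mem {ζ : ℂ} (hζ : 0 < ζ.im) {t : ℝ} (h0 : 0 ≤ t) (h1 : t ≤ 1) :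
    I + (t : ℂ) * (ζ - I) ∈ HP := by
  show 0 < (I + (t : ℂ) * (ζ - I)).im
  simp only [add_im, I_im, mul_im, ofReal_re, sub_im, ofReal_im, zero_mul, add_zero]
  rcases eq_or_lt_of_le h0 with h | h
  · rw [← h]; norm_num
  · nlinarith [mul_pos h hζ]

theorem PROP_low (W h : ℂ → ℂ) (hh : ∀ ζ ∈ HP, HasDerivAt h (exp (W ζ)) ζ)
    (hi : ∀ ζ ∈ HP, |(W ζ).im| ≤ Real.pi / 8)
    (hr : ∀ ζ ∈ HP, -(1 / 4) * Real.log (1 + ‖ζ‖) ≤ (W ζ).re) (ζ : ℂ) (hζ : ζ ∈ HP)
    (hne : ζ - I ≠ 0) :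
    ‖ζ - I‖ ≤ ‖h ζ - h I‖ * (2 * Real.sqrt (2 + ‖ζ - I‖)) := by
  set d := ζ - I with hd
  set s := Real.sqrt (2 + ‖d‖) with hs
  have hpos : 0 < 2 + ‖d‖ := by positivity
  have hs0 : 0 < s := Real.sqrt_pos.2 hpos
  have hζ' : 0 < ζ.im := hζ
  have key : ∀ t : ℝ, 0 ≤ t → t ≤ 1 → 1 / (2 * s) ≤ (exp (W (I + (t : ℂ) * d))).re := by
    intro t h0 h1
    have hm := PROP_mem hζ' h0 h1
    have h2 := hi _ hm
    have h3 := hr _ hm
    have h4 : ‖I + (t : ℂ) * d‖ ≤ 1 + ‖d‖ := by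
      calc ‖I + (t : ℂ) * d‖ ≤ ‖I‖ + ‖(t : ℂ) * d‖ := norm_add_le _ _
        _ = 1 + t * ‖d‖ := by
          rw [Complex.norm_I, norm_mul, Complex.norm_real, Real.norm_of_nonneg h0]
        _ ≤ 1 + ‖d‖ := by nlinarith [norm_nonneg d]
    have h5 : Real.log (1 + ‖I + (t : ℂ) * d‖) ≤ Real.log (2 + ‖d‖) :=
      Real.log_le_log (by positivity) (by linarith)
    have h6 : 0 ≤ Real.log (2 + ‖d‖) := Real.log_nonneg (by linarith [norm_nonneg d])
    have h7 : -(1 / 2) * Real.log (2 + ‖d‖) ≤ (W (I + (t : ℂ) * d)).re := by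
      refine le_trans ?_ h3
      nlinarith
    have h8 : Real.exp (-(1 / 2) * Real.log (2 + ‖d‖)) = 1 / s := by
      have h9 : Real.log s = 1 / 2 * Real.log (2 + ‖d‖) := by
        rw [hs, Real.log_sqrt hpos.le]
        ring
      have h10 : -(1 / 2) * Real.log (2 + ‖d‖) = - Real.log s := by
        rw [h9]
        ring
      rw [h10, Real.exp_neg, Real.exp_log hs0, one_div]
    rw [Complex.exp_re]
    have h11 : 1 / s ≤ Real.exp (W (I + (t : ℂ) * d)).re := by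
      rw [← h8]
      exact Real.exp_le_exp.2 h7
    have h12 := PROP_cos h2
    calc 1 / (2 * s) = 1 / s * (1 / 2) := by
          field_simp
      _ ≤ Real.exp (W (I + (t : ℂ) * d)).re * Real.cos (W (I + (t : ℂ) * d)).im :=
          mul_le_mul h11 h12 (by norm_num) (Real.exp_pos _).le
  have hder : ∀ t : ℝ, 0 ≤ t → t ≤ 1 →
      HasDerivAt (fun x : ℝ => (h (I + (x : ℂ) * d) / d).re) (exp (W (I + (t : ℂ) * d))).re t := by
    intro t h0 h1
    have hm := PROP_mem hζ' h0 h1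
    have h2 : HasDerivAt (fun w : ℂ => I + w * d) d (t : ℂ) := by
      have := ((hasDerivAt_id (t : ℂ)).mul_const d).const_add I
      simpa using this
    have h3 : HasDerivAt (fun w : ℂ => h (I + w * d)) (exp (W (I + (t : ℂ) * d)) * d) (t : ℂ) :=
      (hh _ hm).comp (t : ℂ) h2
    have h4 : HasDerivAt (fun w : ℂ => h (I + w * d) / d) (exp (W (I + (t : ℂ) * d))) (t : ℂ) := by
      have h5 := h3.div_const d
      rwa [mul_div_assoc, div_self hne, mul_one] at h5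
    exact h4.real_of_complex
  have hmvt := Convex.mul_sub_le_image_sub_of_le_deriv (convex_Icc (0 : ℝ) 1)
    (f := fun x : ℝ => (h (I + (x : ℂ) * d) / d).re)
    (fun t ht => (hder t ht.1 ht.2).continuousAt.continuousWithinAt)
    (fun t ht => by
      rw [interior_Icc] at ht
      exact (hder t ht.1.le ht.2.le).differentiableAt.differentiableWithinAt)
    (C := 1 / (2 * s))
    (fun t ht => by
      rw [interior_Icc] at ht
      rw [(hder t ht.1.le ht.2.le).deriv]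
      exact key t ht.1.le ht.2.le)
    0 (left_mem_Icc.2 zero_le_one) 1 (right_mem_Icc.2 zero_le_one) zero_le_one
  have e1 : I + ((1 : ℝ) : ℂ) * d = ζ := by rw [hd]; push_cast; ring
  have e0 : I + ((0 : ℝ) : ℂ) * d = I := by push_cast; ring
  simp only [e1, e0, sub_zero, mul_one] at hmvt
  have h1 : 1 / (2 * s) ≤ ‖h ζ - h I‖ / ‖d‖ := by
    calc 1 / (2 * s) ≤ (h ζ / d).re - (h I / d).re := hmvt
      _ = ((h ζ - h I) / d).re := by rw [sub_div, sub_re]
      _ ≤ ‖(h ζ - h I) / d‖ := Complex.re_le_norm _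
      _ = ‖h ζ - h I‖ / ‖d‖ := norm_div _ _
  have hd0 : 0 < ‖d‖ := norm_pos_iff.2 hne
  rw [div_le_div_iff₀ (by positivity) hd0] at h1
  linarith

theorem t_PROP : S_PROP := by
  intro W h hh hi hr M
  refine ⟨4 * (M + ‖h I‖) ^ 2 + 3, fun ζ hζ hM => ?_⟩
  by_cases hne : ζ - I = 0
  · have h1 : ζ = I := sub_eq_zero.1 hne
    rw [h1, Complex.norm_I]
    nlinarith [sq_nonneg (M + ‖h I‖)]
  · have h1 := PROP_low W h hh hi hr ζ hζ hne
    set x := ‖ζ - I‖ with hx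
    have hx0 : 0 ≤ x := norm_nonneg _
    have h2 : ‖h ζ - h I‖ ≤ M + ‖h I‖ := (norm_sub_le _ _).trans (by linarith)
    set K := M + ‖h I‖ with hK
    have hK0 : 0 ≤ K := (norm_nonneg _).trans h2
    have hs0 : 0 ≤ Real.sqrt (2 + x) := Real.sqrt_nonneg _
    have hss : Real.sqrt (2 + x) ^ 2 = 2 + x := Real.sq_sqrt (by linarith)
    have h3 : x ≤ K * (2 * Real.sqrt (2 + x)) :=
      h1.trans (mul_le_mul_of_nonneg_right h2 (by positivity))
    have h4 : x ^ 2 ≤ 4 * K ^ 2 * (2 + x) := by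
      calc x ^ 2 ≤ (K * (2 * Real.sqrt (2 + x))) ^ 2 := by
            apply pow_le_pow_left₀ hx0 h3
        _ = 4 * K ^ 2 * (Real.sqrt (2 + x) ^ 2) := by ring
        _ = 4 * K ^ 2 * (2 + x) := by rw [hss]
    have h5 : x ≤ 4 * K ^ 2 + 2 := by
      by_contra hcon
      push Not at hcon
      have h6 : (4 * K ^ 2 + 2) * x < x * x := by
        apply mul_lt_mul_of_pos_right hcon
        nlinarith [sq_nonneg K]
      nlinarith [sq_nonneg K]
    have h7 : ‖ζ‖ ≤ x + 1 := by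
      calc ‖ζ‖ = ‖(ζ - I) + I‖ := by rw [sub_add_cancel]
        _ ≤ ‖ζ - I‖ + ‖I‖ := norm_add_le _ _
        _ = x + 1 := by rw [Complex.norm_I]
    linarith

end Pool.Agent.H212.CS
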