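import Pool.Agent.H212.CS.Stm

set_option autoImplicit false

open Complex Set Filter Topology
open scoped ComplexConjugate

namespace Pool.Agent.H212.CS

theorem PTERM_cos (m θ : ℝ) (hm0 : 0 < m) (hm1 : m ≤ 1 / 4) (hθ : |θ| ≤ Real.pi / 2) :
    m / 2 ≤ Real.cos (-(1 - m / 2) * θ) := by
  have hπ := Real.pi_pos
  have h1 : |-(1 - m / 2) * θ| ≤ (1 - m / 2) * (Real.pi / 2) := by
    rw [abs_mul, abs_neg, abs_of_pos (by linarith : 0 < 1 - m / 2)]
    exact mul_le_mul_of_nonneg_left hθ (by linarith)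
  rw [← Real.cos_abs]
  have h2 : Real.cos ((1 - m / 2) * (Real.pi / 2)) ≤ Real.cos |-(1 - m / 2) * θ| := by
    refine Real.cos_le_cos_of_nonneg_of_le_pi (abs_nonneg _) ?_ h1
    nlinarith
  refine le_trans ?_ h2
  have h3 : (1 - m / 2) * (Real.pi / 2) = Real.pi / 2 - m * Real.pi / 4 := by ring
  rw [h3, Real.cos_pi_div_two_sub]
  have h4 := Real.mul_le_sin (x := m * Real.pi / 4) (by positivity) (by nlinarith)
  refine le_trans (le_of_eq ?_) h4
  field_simp
  ring

theorem PTERM_re (c ζ : ℂ) (m : ℝ) (hm0 : 0 < m) (hm1 : m ≤ 1 / 4)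
    (hre : 0 < (-I * (ζ - conj c)).re) (hc : 0 < c.im) :
    4 * ((1 + ‖c‖) ^ (1 / 4 - m) * c.im ^ (m / 2) *
      Real.exp (-(1 - m / 2) * Real.log ‖-I * (ζ - conj c)‖)) ≤ (Pk c m ζ).re := by
  unfold Pk
  rw [Complex.re_ofReal_mul]
  set Z : ℂ := -I * (ζ - conj c) with hZ
  have hZ0 : Z ≠ 0 := by
    intro h
    rw [h] at hre
    simp at hre
  have e1 : (-(1 - (m : ℂ) / 2)) = ((-(1 - m / 2) : ℝ) : ℂ) := by push_cast; ring
  rw [e1, Complex.cpow_def_of_ne_zero hZ0, mul_comm (Complex.log Z), Complex.exp_re,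
    Complex.re_ofReal_mul, Complex.im_ofReal_mul, Complex.log_re, Complex.log_im]
  have h1 := PTERM_cos m Z.arg hm0 hm1 (Complex.abs_arg_le_pi_div_two_iff.2 hre.le)
  have hA : 0 < Ak c m := by unfold Ak; positivity
  have hE : 0 < Real.exp (-(1 - m / 2) * Real.log ‖Z‖) := Real.exp_pos _
  calc 4 * ((1 + ‖c‖) ^ (1 / 4 - m) * c.im ^ (m / 2) *
      Real.exp (-(1 - m / 2) * Real.log ‖Z‖)) =
      Ak c m * (Real.exp (-(1 - m / 2) * Real.log ‖Z‖) * (m / 2)) := by
        unfold Ak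
        field_simp
        ring
    _ ≤ _ := by
        refine mul_le_mul_of_nonneg_left (mul_le_mul_of_nonneg_left h1 hE.le) hA.le

theorem t_PTERM (hLB : S_LB) : S_PTERM := by
  intro c ζ m hc hζ hm0 hm1
  obtain ⟨hre, hn, hys, -, -, hle, -, -, -⟩ := hLB c ζ hc hζ
  have hmain := PTERM_re c ζ m hm0 hm1 hre hc
  rw [hn] at hmain
  refine le_trans ?_ hmain
  have hyρ : c.im ≤ 1 + ‖c‖ :=
    (le_abs_self _).trans ((Complex.abs_im_le_norm c).trans (by linarith))
  have hρ1 : 1 ≤ 1 + ‖c‖ := by linarith [norm_nonneg c]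
  have hz0 : 0 < 1 + ‖ζ‖ := by positivity
  generalize ‖ζ - conj c‖ = s at *
  generalize 1 + ‖c‖ = ρ at *
  generalize c.im = y at *
  generalize 1 + ‖ζ‖ = z at *
  have hs0 : 0 < s := lt_of_lt_of_le hc hys
  have hρ0 : 0 < ρ := by linarith
  have hYS : Real.log y ≤ Real.log s := Real.log_le_log hc hys
  have hYR : Real.log y ≤ Real.log ρ := Real.log_le_log hc hyρ
  have ey : y = Real.exp (Real.log y) := (Real.exp_log hc).symm
  have es : s = Real.exp (Real.log s) := (Real.exp_log hs0).symm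
  have hy1 : 2 * y / s ^ 2 = 2 * Real.exp (Real.log y - 2 * Real.log s) := by
    rw [Real.exp_sub, Real.exp_log hc]
    have : Real.exp (2 * Real.log s) = s ^ 2 := by
      rw [two_mul, Real.exp_add, Real.exp_log hs0]
      ring
    rw [this]
    ring
  have hsr : (s / ρ) ^ m = Real.exp (m * (Real.log s - Real.log ρ)) := by
    rw [Real.rpow_def_of_pos (by positivity), Real.log_div hs0.ne' hρ0.ne']
    ring_nf
  have hr2 : ρ ^ (1 / 4 - m) = Real.exp ((1 / 4 - m) * Real.log ρ) := by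
    rw [Real.rpow_def_of_pos hρ0]
    ring_nf
  have hy2 : y ^ (m / 2) = Real.exp (m / 2 * Real.log y) := by
    rw [Real.rpow_def_of_pos hc]
    ring_nf
  have h2q : (2:ℝ) ^ (1 / 4 : ℝ) ≤ 2 := by
    calc (2:ℝ) ^ (1 / 4 : ℝ) ≤ (2:ℝ) ^ (1 : ℝ) :=
          Real.rpow_le_rpow_of_exponent_le (by norm_num) (by norm_num)
      _ = 2 := Real.rpow_one 2
  rw [hy1, hsr, hr2, hy2]
  rcases le_total s ρ with hsρ | hsρ
  · have hz : z ^ (1 / 4 : ℝ) ≤ 2 * Real.exp (1 / 4 * Real.log ρ) := by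
      calc z ^ (1 / 4 : ℝ) ≤ (2 * ρ) ^ (1 / 4 : ℝ) :=
            Real.rpow_le_rpow hz0.le (by linarith) (by norm_num)
        _ = 2 ^ (1 / 4 : ℝ) * ρ ^ (1 / 4 : ℝ) := Real.mul_rpow (by norm_num) hρ0.le
        _ ≤ 2 * ρ ^ (1 / 4 : ℝ) := mul_le_mul_of_nonneg_right h2q (by positivity)
        _ = _ := by
            rw [Real.rpow_def_of_pos hρ0, mul_comm (Real.log ρ)]
    calc 2 * Real.exp (Real.log y - 2 * Real.log s) *
          (z ^ (1 / 4 : ℝ) * Real.exp (m * (Real.log s - Real.log ρ))) ≤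
          2 * Real.exp (Real.log y - 2 * Real.log s) *
          ((2 * Real.exp (1 / 4 * Real.log ρ)) * Real.exp (m * (Real.log s - Real.log ρ))) := by
            refine mul_le_mul_of_nonneg_left (mul_le_mul_of_nonneg_right hz
              (Real.exp_pos _).le) (by positivity)
      _ = 4 * Real.exp ((Real.log y - 2 * Real.log s) + (1 / 4 * Real.log ρ) +
            (m * (Real.log s - Real.log ρ))) := by
            rw [Real.exp_add, Real.exp_add]; ring
      _ ≤ 4 * Real.exp ((1 / 4 - m) * Real.log ρ + m / 2 * Real.log y +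
            -(1 - m / 2) * Real.log s) := by
            refine mul_le_mul_of_nonneg_left (Real.exp_le_exp.2 ?_) (by norm_num)
            have := mul_le_mul_of_nonneg_left hYS (by linarith : 0 ≤ 1 - m / 2)
            linarith
      _ = _ := by rw [Real.exp_add, Real.exp_add]
  · have hz : z ^ (1 / 4 : ℝ) ≤ 2 * Real.exp (1 / 4 * Real.log s) := by
      calc z ^ (1 / 4 : ℝ) ≤ (2 * s) ^ (1 / 4 : ℝ) :=
            Real.rpow_le_rpow hz0.le (by linarith) (by norm_num)
        _ = 2 ^ (1 / 4 : ℝ) * s ^ (1 / 4 : ℝ) := Real.mul_rpow (by norm_num) hs0.le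
        _ ≤ 2 * s ^ (1 / 4 : ℝ) := mul_le_mul_of_nonneg_right h2q (by positivity)
        _ = _ := by
            rw [Real.rpow_def_of_pos hs0, mul_comm (Real.log s)]
    calc 2 * Real.exp (Real.log y - 2 * Real.log s) *
          (z ^ (1 / 4 : ℝ) * Real.exp (m * (Real.log s - Real.log ρ))) ≤
          2 * Real.exp (Real.log y - 2 * Real.log s) *
          ((2 * Real.exp (1 / 4 * Real.log s)) * Real.exp (m * (Real.log s - Real.log ρ))) := by
            refine mul_le_mul_of_nonneg_left (mul_le_mul_of_nonneg_right hz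
              (Real.exp_pos _).le) (by positivity)
      _ = 4 * Real.exp ((Real.log y - 2 * Real.log s) + (1 / 4 * Real.log s) +
            (m * (Real.log s - Real.log ρ))) := by
            rw [Real.exp_add, Real.exp_add]; ring
      _ ≤ 4 * Real.exp ((1 / 4 - m) * Real.log ρ + m / 2 * Real.log y +
            -(1 - m / 2) * Real.log s) := by
            refine mul_le_mul_of_nonneg_left (Real.exp_le_exp.2 ?_) (by norm_num)
            have := mul_le_mul_of_nonneg_left hYS (by linarith : 0 ≤ 3 / 4 - m / 2)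
            linarith
      _ = _ := by rw [Real.exp_add, Real.exp_add]

end Pool.Agent.H212.CS
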