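import Pool.Agent.H212.CS.Stm

open Complex Set Filter Topology
open scoped ComplexConjugate

namespace Pool.Agent.H212.CS

theorem PUP_num {y ρ s κ m : ℝ} (hy : 0 < y) (hρ : 1 ≤ ρ) (hκ : 0 < κ) (hκ1 : κ ≤ 1)
    (hs : κ ≤ s / ρ) (hm : 0 < m) (hm4 : m ≤ 1 / 4) :
    8 * ρ ^ (1 / 4 - m) * y ^ (m / 2) / m * s ^ (-(1 - m / 2)) ≤
      κ⁻¹ * (8 * ((y / ρ ^ 2) ^ (m / 2) / m)) := by
  have hρ0 : 0 < ρ := by linarith
  have hs1 : κ * ρ ≤ s := by rwa [le_div_iff₀ hρ0] at hs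
  have hA : 0 ≤ 8 * ρ ^ (1 / 4 - m) * y ^ (m / 2) / m := by positivity
  have e1 : s ^ (-(1 - m / 2)) ≤ (κ * ρ) ^ (-(1 - m / 2)) :=
    Real.rpow_le_rpow_of_nonpos (by positivity) hs1 (by linarith)
  have e2 : (κ * ρ) ^ (-(1 - m / 2)) = κ ^ (-(1 - m / 2)) * ρ ^ (-(1 - m / 2)) :=
    Real.mul_rpow hκ.le hρ0.le
  have e3 : κ ^ (-(1 - m / 2)) ≤ κ⁻¹ := by
    rw [← Real.rpow_neg_one]
    exact Real.rpow_le_rpow_of_exponent_ge hκ hκ1 (by linarith)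
  have e4 : ρ ^ (1 / 4 - m) * ρ ^ (-(1 - m / 2)) ≤ ρ ^ (-m) := by
    rw [← Real.rpow_add hρ0]
    exact Real.rpow_le_rpow_of_exponent_le hρ (by linarith)
  have e5 : (y / ρ ^ 2) ^ (m / 2) = y ^ (m / 2) * ρ ^ (-m) := by
    rw [Real.div_rpow hy.le (by positivity), div_eq_mul_inv, Real.rpow_neg hρ0.le]
    congr 2
    rw [← Real.rpow_natCast, ← Real.rpow_mul hρ0.le]
    congr 1
    push_cast
    ring
  have hρm : 0 ≤ ρ ^ (-(1 - m / 2)) := by positivity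
  calc 8 * ρ ^ (1 / 4 - m) * y ^ (m / 2) / m * s ^ (-(1 - m / 2))
      ≤ 8 * ρ ^ (1 / 4 - m) * y ^ (m / 2) / m * (κ⁻¹ * ρ ^ (-(1 - m / 2))) := by
        refine mul_le_mul_of_nonneg_left ?_ hA
        refine e1.trans (e2.le.trans ?_)
        exact mul_le_mul_of_nonneg_right e3 hρm
    _ = κ⁻¹ * (8 * (y ^ (m / 2) * (ρ ^ (1 / 4 - m) * ρ ^ (-(1 - m / 2))) / m)) := by ring
    _ ≤ κ⁻¹ * (8 * (y ^ (m / 2) * ρ ^ (-m) / m)) := by
        have h1 : 0 ≤ y ^ (m / 2) := by positivity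
        have h2 := mul_le_mul_of_nonneg_left e4 h1
        have h3 := div_le_div_of_nonneg_right h2 hm.le
        have h4 := mul_le_mul_of_nonneg_left h3 (show (0 : ℝ) ≤ 8 by norm_num)
        exact mul_le_mul_of_nonneg_left h4 (by positivity)
    _ = κ⁻¹ * (8 * ((y / ρ ^ 2) ^ (m / 2) / m)) := by rw [e5]

theorem t_PUP (hLB : S_LB) : S_PUP := by
  intro c ζ m hc hζ hm hm4
  obtain ⟨h1, h2, h3, h4, -⟩ := hLB c ζ hc hζ
  have hn : 0 ≤ ‖ζ‖ := norm_nonneg _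
  have hρ : 1 ≤ 1 + ‖c‖ := by linarith [norm_nonneg c]
  have hρ0 : 0 < 1 + ‖c‖ := by linarith
  have hκ : 0 < ζ.im / (2 * (1 + ‖ζ‖)) := by positivity
  have hκ1 : ζ.im / (2 * (1 + ‖ζ‖)) ≤ 1 := by
    rw [div_le_one (by positivity)]
    have := (Complex.abs_im_le_norm ζ)
    have := le_abs_self ζ.im
    linarith
  have e : ‖Pk c m ζ‖ = 8 * (1 + ‖c‖) ^ (1 / 4 - m) * c.im ^ (m / 2) / m *
      ‖ζ - conj c‖ ^ (-(1 - m / 2)) := by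
    have e1 : (-(1 - (m : ℂ) / 2)) = ((-(1 - m / 2) : ℝ) : ℂ) := by push_cast; ring
    have hA : 0 ≤ Ak c m := by
      unfold Ak
      positivity
    unfold Pk
    rw [norm_mul, e1, Complex.norm_cpow_real, h2, Complex.norm_real, Real.norm_eq_abs,
      abs_of_nonneg hA]
    rfl
  rw [e]
  have h := PUP_num hc hρ hκ hκ1 h4 hm hm4
  rwa [inv_div] at h

end Pool.Agent.H212.CS
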