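import Mathlib
import Pool.Agent.H212.CS.Stm

/-! CS SUP: support lines. -/

set_option autoImplicit false

open Complex Set Filter Topology
open scoped ComplexConjugate

namespace Pool.Agent.H212.CS

theorem SUP_hor {k k' : ℂ → ℂ} (hk : ∀ ζ ∈ HP, HasDerivAt k (k' ζ) ζ) {y : ℝ} (hy : 0 < y) (x : ℝ) :
    HasDerivAt (fun x : ℝ => (k (x + y * I)).im) (k' (x + y * I)).im x := by
  have h0 : ((x : ℂ) + y * I) ∈ HP := by
    show 0 < ((x : ℂ) + y * I).im
    simp [hy]
  have h1 : HasDerivAt (fun w : ℂ => k (w + y * I)) (k' (x + y * I)) (x : ℂ) :=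
    (hk _ h0).comp_add_const (x : ℂ) (y * I)
  have h2 := h1.comp_ofReal
  exact Complex.imCLM.hasFDerivAt.comp_hasDerivAt x h2

theorem SUP_ver {k k' : ℂ → ℂ} (hk : ∀ ζ ∈ HP, HasDerivAt k (k' ζ) ζ) (x : ℝ) {y : ℝ} (hy : 0 < y) :
    HasDerivAt (fun y : ℝ => (k (x + y * I)).im) (k' (x + y * I)).re y := by
  have h0 : ((x : ℂ) + y * I) ∈ HP := by
    show 0 < ((x : ℂ) + y * I).im
    simp [hy]
  have h1 : HasDerivAt (fun w : ℂ => (x : ℂ) + w * I) I (y : ℂ) := by
    have := ((hasDerivAt_id (y : ℂ)).mul_const I).const_add (x : ℂ)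
    simpa using this
  have h2 : HasDerivAt (fun w : ℂ => k ((x : ℂ) + w * I)) (k' (x + y * I) * I) (y : ℂ) :=
    (hk _ h0).comp (y : ℂ) h1
  have h3 := h2.comp_ofReal
  have h4 := Complex.imCLM.hasFDerivAt.comp_hasDerivAt y h3
  have h5 : (Complex.imCLM : ℂ → ℝ) (k' (x + y * I) * I) = (k' (x + y * I)).re := by
    simp [Complex.mul_im]
  have h6 : Complex.imCLM (k' (x + y * I) * I) = (k' (x + y * I)).re := h5
  rw [h6] at h4
  exact h4

theorem t_SUP : S_SUP := by
  intro W h hh hW hmon z0 z h0 h1
  have hpi := Real.pi_pos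
  set k : ℂ → ℂ := fun ζ => h ζ / exp (W z0) with hk
  set k' : ℂ → ℂ := fun ζ => exp (W ζ - W z0) with hk'
  have hd : ∀ ζ ∈ HP, HasDerivAt k (k' ζ) ζ := by
    intro ζ hζ
    have h2 := (hh ζ hζ).div_const (exp (W z0))
    rw [← Complex.exp_sub] at h2
    exact h2
  have hz0 : ((z0.re : ℂ) + z0.im * I) = z0 := Complex.re_add_im z0
  have hz : ((z.re : ℂ) + z.im * I) = z := Complex.re_add_im z
  have hmem : ∀ (x : ℝ) {y : ℝ}, 0 < y → ((x : ℂ) + y * I) ∈ HP := by
    intro x y hy
    show 0 < ((x : ℂ) + y * I).im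
    simp [hy]
  have hz0m : z0 ∈ HP := h0
  have hb0 := abs_le.1 (hW z0 hz0m)
  -- horizontal part
  have hor : (k z0).im ≤ (k ((z.re : ℂ) + z0.im * I)).im := by
    have e0 : (k z0).im = (fun x : ℝ => (k (x + z0.im * I)).im) z0.re := by
      simp only [hz0]
    rw [e0]
    rcases le_total z0.re z.re with hx | hx
    · have hm : MonotoneOn (fun x : ℝ => (k (x + z0.im * I)).im) (Ici z0.re) := by
        apply monotoneOn_of_deriv_nonneg (convex_Ici _)
        · intro x _
          exact (SUP_hor hd h0 x).continuousAt.continuousWithinAt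
        · intro x _
          exact (SUP_hor hd h0 x).differentiableAt.differentiableWithinAt
        · intro x hx'
          rw [interior_Ici] at hx'
          rw [(SUP_hor hd h0 x).deriv]
          have hb := abs_le.1 (hW _ (hmem x h0))
          have hm1 := hmon z0.im h0 (le_of_lt hx')
          simp only [hz0] at hm1
          simp only [hk', Complex.exp_im, Complex.sub_im]
          apply mul_nonneg (Real.exp_pos _).le
          exact Real.sin_nonneg_of_nonneg_of_le_pi (by linarith) (by linarith)
      exact hm (mem_Ici.2 le_rfl) (mem_Ici.2 hx) hx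
    · have hm : AntitoneOn (fun x : ℝ => (k (x + z0.im * I)).im) (Iic z0.re) := by
        apply antitoneOn_of_deriv_nonpos (convex_Iic _)
        · intro x _
          exact (SUP_hor hd h0 x).continuousAt.continuousWithinAt
        · intro x _
          exact (SUP_hor hd h0 x).differentiableAt.differentiableWithinAt
        · intro x hx'
          rw [interior_Iic] at hx'
          rw [(SUP_hor hd h0 x).deriv]
          have hb := abs_le.1 (hW _ (hmem x h0))
          have hm1 := hmon z0.im h0 (le_of_lt hx')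
          simp only [hz0] at hm1
          simp only [hk', Complex.exp_im, Complex.sub_im]
          apply mul_nonpos_of_nonneg_of_nonpos (Real.exp_pos _).le
          exact Real.sin_nonpos_of_nonpos_of_neg_pi_le (by linarith) (by linarith)
      exact hm (mem_Iic.2 hx) (mem_Iic.2 le_rfl) hx
  -- vertical part
  have ver : (k ((z.re : ℂ) + z0.im * I)).im < (k z).im := by
    have hm : StrictMonoOn (fun y : ℝ => (k (z.re + y * I)).im) (Ici z0.im) := by
      apply strictMonoOn_of_deriv_pos (convex_Ici _)
      · intro y hy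
        exact (SUP_ver hd z.re (lt_of_lt_of_le h0 hy)).continuousAt.continuousWithinAt
      · intro y hy
        rw [interior_Ici] at hy
        have hy0 : 0 < y := lt_trans h0 hy
        rw [(SUP_ver hd z.re hy0).deriv]
        have hb := abs_le.1 (hW _ (hmem z.re hy0))
        simp only [hk', Complex.exp_re, Complex.sub_im]
        apply mul_pos (Real.exp_pos _)
        exact Real.cos_pos_of_mem_Ioo ⟨by linarith, by linarith⟩
    have h3 := hm (mem_Ici.2 le_rfl) (mem_Ici.2 h1.le) h1
    simp only [hz] at h3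
    exact h3
  have e : (h z - h z0) / exp (W z0) = k z - k z0 := by
    simp only [hk]
    rw [sub_div]
  rw [e, Complex.sub_im]
  linarith

end Pool.Agent.H212.CS
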