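import Pool.Agent.H212.CS.Stm

open Complex Set Filter Topology
open scoped ComplexConjugate

namespace Pool.Agent.H212.CS

theorem WDIFF_lk (hLB : S_LB) (c : ℂ) (hc : 0 < c.im) : DifferentiableOn ℂ (Lk c) HP := by
  intro ζ hζ
  have hζ' : 0 < ζ.im := hζ
  have h1 := (hLB c ζ hc hζ').1
  have hρ : (0 : ℝ) < 1 + ‖c‖ := by positivity
  have h2 : -I * (ζ - conj c) / ((1 + ‖c‖ : ℝ) : ℂ) ∈ slitPlane := by
    left
    rw [Complex.div_ofReal_re]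
    exact div_pos h1 hρ
  have h3 : DifferentiableAt ℂ (fun ζ : ℂ => -I * (ζ - conj c) / ((1 + ‖c‖ : ℝ) : ℂ)) ζ := by
    fun_prop
  exact (h3.clog h2).differentiableWithinAt

theorem WDIFF_bd (hLB : S_LB) (c : ℂ) (hc : 0 < c.im) (ζ : ℂ) (R y : ℝ) (hy : 0 < y)
    (hζ : y ≤ ζ.im) (hR : ‖ζ‖ ≤ R) :
    ‖Lk c ζ‖ ≤ Real.log (1 + R) + Real.log (2 * (1 + R) / y) + Real.pi / 2 := by
  have hζ' : 0 < ζ.im := lt_of_lt_of_le hy hζ
  obtain ⟨-, -, -, -, -, -, -, -, h9⟩ := hLB c ζ hc hζ'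
  have h0 : 0 ≤ ‖ζ‖ := norm_nonneg ζ
  have h1 : Real.log (1 + ‖ζ‖) ≤ Real.log (1 + R) :=
    Real.log_le_log (by linarith) (by linarith)
  have h2 : Real.log (2 * (1 + ‖ζ‖) / ζ.im) ≤ Real.log (2 * (1 + R) / y) := by
    refine Real.log_le_log (by positivity) ?_
    exact div_le_div₀ (by linarith) (by linarith) hy hζ
  linarith

theorem t_WDIFF (hLB : S_LB) : S_WDIFF := by
  intro c μ hc hμ hs
  have key : ∀ ζ₀ ∈ HP, ∃ C : ℝ, ∀ n, ∀ ζ ∈ Metric.ball ζ₀ (ζ₀.im / 2), ζ ∈ HP ∧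
      ‖(μ n : ℂ) * Lk (c n) ζ‖ ≤ μ n * C := by
    intro ζ₀ hζ₀
    have hζ₀' : 0 < ζ₀.im := hζ₀
    refine ⟨Real.log (1 + (‖ζ₀‖ + ζ₀.im / 2)) +
      Real.log (2 * (1 + (‖ζ₀‖ + ζ₀.im / 2)) / (ζ₀.im / 2)) + Real.pi / 2, ?_⟩
    intro n ζ hζ
    rw [Metric.mem_ball, dist_eq_norm] at hζ
    have h1 : |(ζ - ζ₀).im| ≤ ‖ζ - ζ₀‖ := Complex.abs_im_le_norm _
    rw [Complex.sub_im] at h1
    have h2 := (abs_le.1 (h1.trans hζ.le)).1
    have h3 : ζ₀.im / 2 ≤ ζ.im := by linarith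
    have h4 : ‖ζ‖ ≤ ‖ζ₀‖ + ζ₀.im / 2 := by
      have : ‖ζ‖ ≤ ‖ζ - ζ₀‖ + ‖ζ₀‖ := by
        have := norm_add_le (ζ - ζ₀) ζ₀
        rwa [sub_add_cancel] at this
      linarith
    have h5 : 0 < ζ.im := by linarith
    refine ⟨h5, ?_⟩
    rw [norm_mul, Complex.norm_real, Real.norm_eq_abs, abs_of_pos (hμ n)]
    exact mul_le_mul_of_nonneg_left
      (WDIFF_bd hLB (c n) (hc n) ζ _ _ (by linarith) h3 h4) (hμ n).le
  constructor
  · intro ζ₀ hζ₀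
    have hζ₀' : 0 < ζ₀.im := hζ₀
    obtain ⟨C, hC⟩ := key ζ₀ hζ₀
    have h1 : DifferentiableOn ℂ (fun ζ => ∑' n, (μ n : ℂ) * Lk (c n) ζ)
        (Metric.ball ζ₀ (ζ₀.im / 2)) := by
      refine Complex.differentiableOn_tsum_of_summable_norm (u := fun n => μ n * C)
        (hs.mul_right C) (fun n => ?_) Metric.isOpen_ball (fun n ζ hζ => (hC n ζ hζ).2)
      exact ((WDIFF_lk hLB (c n) (hc n)).mono fun ζ hζ => (hC n ζ hζ).1).const_mul _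
    have h2 : ζ₀ ∈ Metric.ball ζ₀ (ζ₀.im / 2) := Metric.mem_ball_self (by linarith)
    have h3 : DifferentiableAt ℂ (fun ζ => ∑' n, (μ n : ℂ) * Lk (c n) ζ) ζ₀ :=
      (h1 ζ₀ h2).differentiableAt (Metric.isOpen_ball.mem_nhds h2)
    exact h3.neg.differentiableWithinAt
  · intro ζ hζ
    have hζ' : 0 < ζ.im := hζ
    obtain ⟨C, hC⟩ := key ζ hζ
    refine Summable.of_norm_bounded (g := fun n => μ n * C) (hs.mul_right C) fun n => ?_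
    exact (hC n ζ (Metric.mem_ball_self (by linarith))).2

end Pool.Agent.H212.CS
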