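import Pool.Agent.H212.CS.Stm

open Complex Set Filter Topology
open scoped ComplexConjugate

namespace Pool.Agent.H212.CS

lemma WIM_arg (z : ℂ) (h : 0 < z.re) : Complex.arg z = Real.arctan (z.im / z.re) := by
  have h1 : |Complex.arg z| < Real.pi / 2 := Complex.abs_arg_lt_pi_div_two_iff.mpr (Or.inl h)
  rw [abs_lt] at h1
  rw [← Complex.tan_arg z, Real.arctan_tan (by linarith [h1.1]) h1.2]

lemma WIM_re (c ζ : ℂ) :
    (-I * (ζ - conj c) / ((1 + ‖c‖ : ℝ) : ℂ)).re = (ζ.im + c.im) / (1 + ‖c‖) := by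
  rw [Complex.div_ofReal_re]
  simp

lemma WIM_im (c ζ : ℂ) :
    (-I * (ζ - conj c) / ((1 + ‖c‖ : ℝ) : ℂ)).im = (c.re - ζ.re) / (1 + ‖c‖) := by
  rw [Complex.div_ofReal_im]
  simp

lemma WIM_Lk (c ζ : ℂ) (hc : 0 < c.im) (hζ : 0 < ζ.im) :
    (Lk c ζ).im = Real.arctan ((c.re - ζ.re) / (ζ.im + c.im)) := by
  have hρ : 0 < 1 + ‖c‖ := by positivity
  unfold Lk
  rw [Complex.log_im, WIM_arg _ (by rw [WIM_re]; positivity), WIM_re, WIM_im]
  congr 1
  field_simp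

lemma WIM_anti (c : ℂ) (hc : 0 < c.im) (y : ℝ) (hy : 0 < y) (x₁ x₂ : ℝ) (h : x₁ ≤ x₂) :
    (Lk c (x₂ + y * I)).im ≤ (Lk c (x₁ + y * I)).im := by
  rw [WIM_Lk c _ hc (by simpa using hy), WIM_Lk c _ hc (by simpa using hy)]
  apply Real.arctan_strictMono.monotone
  simp only [Complex.add_re, Complex.ofReal_re, Complex.mul_re, Complex.I_re, mul_zero,
    Complex.ofReal_im, Complex.I_im, mul_one, sub_self, add_zero, Complex.add_im, Complex.mul_im,
    zero_add]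
  apply div_le_div_of_nonneg_right _ (by positivity)
  linarith

lemma WIM_W (c : ℕ → ℂ) (μ : ℕ → ℝ) (ζ : ℂ) (hs : Summable (fun n => (μ n : ℂ) * Lk (c n) ζ)) :
    (Wf c μ ζ).im = -∑' n, μ n * (Lk (c n) ζ).im ∧
      Summable (fun n => μ n * (Lk (c n) ζ).im) := by
  have h1 : ∀ n, ((μ n : ℂ) * Lk (c n) ζ).im = μ n * (Lk (c n) ζ).im := fun n =>
    Complex.im_ofReal_mul _ _
  constructor
  · unfold Wf
    rw [Complex.neg_im, Complex.im_tsum hs]
    congr 1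
    exact tsum_congr h1
  · have h2 := Complex.imCLM.summable hs
    refine h2.congr fun n => ?_
    simp [Complex.imCLM_apply]

theorem t_WIM (hLB : S_LB) (hWDIFF : S_WDIFF) : S_WIM := by
  intro c μ hc hμ hsum htot
  have hpi := Real.pi_pos
  refine ⟨fun ζ hζ => ?_, fun y hy x₁ x₂ hx => ?_⟩
  · obtain ⟨h1, h2⟩ := WIM_W c μ ζ ((hWDIFF c μ hc hμ hsum).2 ζ hζ)
    have h3 : ∀ n, |(Lk (c n) ζ).im| ≤ Real.pi / 2 := fun n =>
      (hLB (c n) ζ (hc n) hζ).2.2.2.2.2.2.1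
    have h4 : Summable (fun n => μ n * (Real.pi / 2)) := hsum.mul_right _
    have h5 : ∑' n, μ n * (Real.pi / 2) ≤ Real.pi / 8 := by
      rw [tsum_mul_right]
      nlinarith
    have h6 : ∑' n, μ n * (Lk (c n) ζ).im ≤ ∑' n, μ n * (Real.pi / 2) :=
      h2.tsum_le_tsum (fun n => mul_le_mul_of_nonneg_left ((le_abs_self _).trans (h3 n)) (hμ n).le) h4
    have h7 : -∑' n, μ n * (Lk (c n) ζ).im ≤ ∑' n, μ n * (Real.pi / 2) := by
      rw [← tsum_neg]
      refine h2.neg.tsum_le_tsum (fun n => ?_) h4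
      have := mul_le_mul_of_nonneg_left ((neg_le_abs _).trans (h3 n)) (hμ n).le
      linarith
    rw [h1, abs_neg, abs_le]
    constructor <;> linarith
  · have hm : ∀ x : ℝ, ((x : ℂ) + y * I) ∈ HP := fun x => by
      show 0 < ((x : ℂ) + y * I).im
      simpa using hy
    obtain ⟨h1, h2⟩ := WIM_W c μ _ ((hWDIFF c μ hc hμ hsum).2 _ (hm x₁))
    obtain ⟨h3, h4⟩ := WIM_W c μ _ ((hWDIFF c μ hc hμ hsum).2 _ (hm x₂))
    show (Wf c μ (x₁ + y * I)).im ≤ (Wf c μ (x₂ + y * I)).im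
    rw [h1, h3]
    apply neg_le_neg
    exact h4.tsum_le_tsum
      (fun n => mul_le_mul_of_nonneg_left (WIM_anti (c n) (hc n) y hy x₁ x₂ hx) (hμ n).le) h2

end Pool.Agent.H212.CS
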