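import Pool.Agent.H212.CS.Stm

/-!
# CS / WRE: real part of `W` (helper331, for helper212)
-/

set_option autoImplicit false

open Complex Set Filter Topology
open scoped ComplexConjugate

namespace Pool.Agent.H212.CS

theorem WRE_key (hLB : S_LB) (hWDIFF : S_WDIFF) (c : ℕ → ℂ) (μ : ℕ → ℝ) (hc : ∀ n, 0 < (c n).im)
    (hμ : ∀ n, 0 < μ n) (hs : Summable μ) (ζ : ℂ) (hζ : ζ ∈ HP) :
    Summable (fun k => μ k * Real.log (‖ζ - conj (c k)‖ / (1 + ‖c k‖))) ∧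
      (Wf c μ ζ).re = -∑' k, μ k * Real.log (‖ζ - conj (c k)‖ / (1 + ‖c k‖)) := by
  have h1 := (hWDIFF c μ hc hμ hs).2 ζ hζ
  have h2 : (fun k => ((μ k : ℂ) * Lk (c k) ζ).re) =
      fun k => μ k * Real.log (‖ζ - conj (c k)‖ / (1 + ‖c k‖)) := by
    funext k
    obtain ⟨-, -, -, -, -, -, -, h8, -⟩ := hLB (c k) ζ (hc k) hζ
    rw [Complex.re_ofReal_mul, h8]
  have h3 := Complex.hasSum_re h1.hasSum
  rw [h2] at h3
  refine ⟨h3.summable, ?_⟩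
  unfold Wf
  rw [Complex.neg_re, h3.tsum_eq]

theorem WRE_log (hLB : S_LB) {c ζ : ℂ} (hc : 0 < c.im) (hζ : 0 < ζ.im) :
    Real.log (‖ζ - conj c‖ / (1 + ‖c‖)) ≤ Real.log (1 + ‖ζ‖) := by
  obtain ⟨-, -, h3, -, h5, -, -, -, -⟩ := hLB c ζ hc hζ
  have h6 : 0 < ‖ζ - conj c‖ := lt_of_lt_of_le hc h3
  exact Real.log_le_log (by positivity) h5

theorem t_WRE (hLB : S_LB) (hWDIFF : S_WDIFF) : S_WRE := by
  intro c μ hc hμ hs hs4
  have hB : ∀ ζ : ℂ, 0 ≤ Real.log (1 + ‖ζ‖) := fun ζ =>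
    Real.log_nonneg (by linarith [norm_nonneg ζ])
  refine ⟨fun ζ hζ => ?_, fun ζ hζ n => ?_⟩
  · obtain ⟨h1, h2⟩ := WRE_key hLB hWDIFF c μ hc hμ hs ζ hζ
    have h3 : ∑' k, μ k * Real.log (‖ζ - conj (c k)‖ / (1 + ‖c k‖)) ≤
        ∑' k, μ k * Real.log (1 + ‖ζ‖) :=
      h1.tsum_le_tsum (fun k => mul_le_mul_of_nonneg_left (WRE_log hLB (hc k) hζ) (hμ k).le)
        (hs.mul_right _)
    rw [tsum_mul_right] at h3
    have h4 : (∑' k, μ k) * Real.log (1 + ‖ζ‖) ≤ 1 / 4 * Real.log (1 + ‖ζ‖) :=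
      mul_le_mul_of_nonneg_right hs4 (hB ζ)
    rw [h2]
    linarith
  · obtain ⟨h1, h2⟩ := WRE_key hLB hWDIFF c μ hc hμ hs ζ hζ
    have h5 := hasSum_ite_eq n (μ n * Real.log (‖ζ - conj (c n)‖ / (1 + ‖c n‖)) -
      μ n * Real.log (1 + ‖ζ‖))
    have h6 := (hs.hasSum.mul_right (Real.log (1 + ‖ζ‖))).add h5
    have h3 := hasSum_le (fun k => ?_) h1.hasSum h6
    · have h4 : (∑' k, μ k) * Real.log (1 + ‖ζ‖) ≤ 1 / 4 * Real.log (1 + ‖ζ‖) :=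
        mul_le_mul_of_nonneg_right hs4 (hB ζ)
      have h7 : 0 ≤ μ n * Real.log (1 + ‖ζ‖) := mul_nonneg (hμ n).le (hB ζ)
      rw [h2]
      linarith
    · by_cases hk : k = n
      · subst hk
        rw [if_pos rfl]
        linarith
      · rw [if_neg hk, add_zero]
        exact mul_le_mul_of_nonneg_left (WRE_log hLB (hc k) hζ) (hμ k).le

end Pool.Agent.H212.CS
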