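import Pool.Agent.H212.CS.T_NW
import Pool.Agent.H212.CS.T_PRIM
import Pool.Agent.H212.CS.T_SUP
import Pool.Agent.H212.CS.T_PROP
import Pool.Agent.H212.CS.T_CONV
import Pool.Agent.H212.CS.T_CTC
import Pool.Agent.H212.CS.T_CRIT
import Pool.Agent.H212.CS.T_LB
import Pool.Agent.H212.CS.T_WDIFF
import Pool.Agent.H212.CS.T_WIM
import Pool.Agent.H212.CS.T_WRE
import Pool.Agent.H212.CS.T_PTERM
import Pool.Agent.H212.CS.T_PUP
import Pool.Agent.H212.CS.T_PDIFF
import Pool.Agent.H212.CS.T_BLP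
import Pool.Agent.H212.CS.T_BL
import Pool.Agent.H212.CS.T_CAY
import Pool.Agent.H212.CS.T_DOM1
import Pool.Agent.H212.CS.T_DOM2
import Pool.Agent.H212.CS.T_HALF
import Pool.Agent.H212.CS.T_MAIN0
import Pool.Agent.H212.CS.T_MAIN1
import Pool.Agent.H212.CS.T_LOG

open Complex Set Filter Topology
open scoped ComplexConjugate

namespace Pool.Agent.H212.CS

theorem main1 : S_MAIN1 := by
  have hCRIT : S_CRIT := t_CRIT t_NW t_PRIM t_SUP t_PROP t_CONV (t_CTC t_NW)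
  have hWDIFF : S_WDIFF := t_WDIFF t_LB
  have hWIM : S_WIM := t_WIM t_LB hWDIFF
  have hWRE : S_WRE := t_WRE t_LB hWDIFF
  have hPTERM : S_PTERM := t_PTERM t_LB
  have hPUP : S_PUP := t_PUP t_LB
  have hPDIFF : S_PDIFF := t_PDIFF t_LB hPUP
  have hBL : S_BL := t_BL t_BLP
  have hDOM1 : S_DOM1 := t_DOM1 t_LB hWRE hPTERM hPDIFF
  have hDOM2 : S_DOM2 := t_DOM2 t_CAY
  have hHALF : S_HALF := t_HALF hCRIT t_PRIM hWDIFF hWIM hWRE hPDIFF t_CAY hDOM1 hDOM2
  exact t_MAIN1 (t_MAIN0 hBL t_CAY hHALF)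

theorem main2 (z : ℕ → ℂ) (hz : ∀ n, ‖z n‖ < 1)
    (hs : Summable (fun n => Real.log (Real.log (16 / (1 - ‖z n‖))) / Real.log (16 / (1 - ‖z n‖)))) : Coin z := by
  refine main1 z (fun n => 2 * Real.log (Real.log (16 / (1 - ‖z n‖))) / Real.log (16 / (1 - ‖z n‖))) hz ?_ ?_ ?_
  · intro n
    exact (t_LOG (1 - ‖z n‖) (by linarith [hz n]) (by linarith [norm_nonneg (z n)])).1
  · have := hs.mul_left 2
    refine this.congr (fun n => ?_)
    ring
  · refine Summable.of_nonneg_of_le (fun n => ?_) (fun n => ?_) (hs.mul_left 8)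
    · have h1 := (t_LOG (1 - ‖z n‖) (by linarith [hz n]) (by linarith [norm_nonneg (z n)])).1
      exact div_nonneg (Real.rpow_nonneg (by linarith [hz n]) _) h1.le
    · exact (t_LOG (1 - ‖z n‖) (by linarith [hz n]) (by linarith [norm_nonneg (z n)])).2

end Pool.Agent.H212.CS
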