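import Pool.Agent.H212.CS.Stm

open Complex Set Filter Topology
open scoped ComplexConjugate

namespace Pool.Agent.H212.CS

theorem BLP_deriv {F : ℕ → ℂ → ℂ} {w : ℂ} (hd : ∀ n, DifferentiableAt ℂ (F n) w)
    (h1 : ∀ n, ‖F n w‖ ≤ 1) (N : ℕ) :
    DifferentiableAt ℂ (fun x => ∏ i ∈ Finset.range N, F i x) w ∧
    ‖∏ i ∈ Finset.range N, F i w‖ ≤ 1 ∧
    ‖deriv (fun x => ∏ i ∈ Finset.range N, F i x) w‖ ≤ ∑ i ∈ Finset.range N, ‖deriv (F i) w‖ := by
  induction N with
  | zero => simp
  | succ N ih =>
    obtain ⟨i1, i2, i3⟩ := ih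
    have e : (fun x => ∏ i ∈ Finset.range (N + 1), F i x) =
        fun x => (∏ i ∈ Finset.range N, F i x) * F N x := by
      funext x
      rw [Finset.prod_range_succ]
    refine ⟨?_, ?_, ?_⟩
    · rw [e]
      exact i1.mul (hd N)
    · rw [Finset.prod_range_succ, norm_mul]
      exact mul_le_one₀ i2 (norm_nonneg _) (h1 N)
    · rw [e, Finset.sum_range_succ]
      have e2 : deriv (fun x => (∏ i ∈ Finset.range N, F i x) * F N x) w =
          deriv (fun x => ∏ i ∈ Finset.range N, F i x) w * F N w +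
            (∏ i ∈ Finset.range N, F i w) * deriv (F N) w := (i1.hasDerivAt.mul (hd N).hasDerivAt).deriv
      rw [e2]
      refine (norm_add_le _ _).trans ?_
      rw [norm_mul, norm_mul]
      have g1 : ‖deriv (fun x => ∏ i ∈ Finset.range N, F i x) w‖ * ‖F N w‖ ≤
          ‖deriv (fun x => ∏ i ∈ Finset.range N, F i x) w‖ * 1 :=
        mul_le_mul_of_nonneg_left (h1 N) (norm_nonneg _)
      have g2 : ‖∏ i ∈ Finset.range N, F i w‖ * ‖deriv (F N) w‖ ≤ 1 * ‖deriv (F N) w‖ :=
        mul_le_mul_of_nonneg_right i2 (norm_nonneg _)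
      linarith

theorem t_BLP : S_BLP := by
  intro F u hdiff h1 h0 hu hb hs
  have hu0 : ∀ n, 0 ≤ u n := by
    intro n
    have h := hb n 0 (Metric.mem_ball_self one_pos)
    rw [norm_zero, sub_zero, div_one] at h
    exact (norm_nonneg _).trans h
  have hone : ∀ n x, 1 + (F n x - 1) = F n x := fun n x => by ring
  set G : ℂ → ℂ := fun x => ∏' i, (1 + (F i x - 1)) with hG
  -- local uniform convergence near each point
  have hloc : ∀ w ∈ Metric.ball (0 : ℂ) 1, ∃ r : ℝ, r < 1 ∧ w ∈ Metric.ball (0 : ℂ) r ∧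
      TendstoLocallyUniformlyOn (fun (N : ℕ) (x : ℂ) => ∏ i ∈ Finset.range N, F i x) G atTop
        (Metric.ball 0 r) := by
    intro w hw
    rw [mem_ball_zero_iff] at hw
    refine ⟨(1 + ‖w‖) / 2, by linarith, by rw [mem_ball_zero_iff]; linarith, ?_⟩
    have hr : (1 + ‖w‖) / 2 < 1 := by linarith
    set r := (1 + ‖w‖) / 2 with hrd
    have hsum : Summable fun n => u n / (1 - r) := hu.div_const _
    have hp := Summable.hasProdLocallyUniformlyOn_nat_one_add (f := fun n x => F n x - 1)
      (K := Metric.ball (0 : ℂ) r) Metric.isOpen_ball hsum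
      (Filter.Eventually.of_forall fun n x hx => ?_) fun n => ?_
    · have h2 := hp.tendstoLocallyUniformlyOn_finsetRange
      simp only [hone] at h2
      simpa only [hG, hone] using h2
    · rw [mem_ball_zero_iff] at hx
      have h2 := hb n x (by rw [mem_ball_zero_iff]; linarith)
      refine h2.trans ?_
      exact div_le_div_of_nonneg_left (hu0 n) (by linarith) (by linarith)
    · exact ((hdiff n).mono (Metric.ball_subset_ball hr.le)).continuousOn.sub continuousOn_const
  have hdp : ∀ r : ℝ, r < 1 → ∀ N : ℕ,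
      DifferentiableOn ℂ (fun x : ℂ => ∏ i ∈ Finset.range N, F i x) (Metric.ball 0 r) := by
    intro r hr N x hx
    have hx1 : x ∈ Metric.ball (0 : ℂ) 1 := Metric.ball_subset_ball hr.le hx
    exact (BLP_deriv (fun n => (hdiff n).differentiableAt (Metric.isOpen_ball.mem_nhds hx1))
      (fun n => h1 n x hx1) N).1.differentiableWithinAt
  refine ⟨G, ?_, ?_, ?_, ?_, ?_⟩
  · intro w hw
    obtain ⟨r, hr, hwr, hT⟩ := hloc w hw
    exact ((hT.differentiableOn (Filter.Eventually.of_forall (hdp r hr)) Metric.isOpen_ball).differentiableAt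
      (Metric.isOpen_ball.mem_nhds hwr)).differentiableWithinAt
  · intro w hw
    obtain ⟨r, hr, hwr, hT⟩ := hloc w hw
    refine le_of_tendsto' (hT.tendsto_at hwr).norm fun N => ?_
    exact (BLP_deriv (fun n => (hdiff n).differentiableAt (Metric.isOpen_ball.mem_nhds hw))
      (fun n => h1 n w hw) N).2.1
  · intro n w hw hz
    obtain ⟨r, hr, hwr, hT⟩ := hloc w hw
    refine tendsto_nhds_unique (hT.tendsto_at hwr) ?_
    refine tendsto_const_nhds.congr' ?_
    filter_upwards [Filter.eventually_gt_atTop n] with N hN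
    exact (Finset.prod_eq_zero (Finset.mem_range.2 hN) hz).symm
  · refine tprod_one_add_ne_zero_of_summable (f := fun n => F n 0 - 1) (fun n => ?_) ?_
    · rw [hone]; exact h0 n
    · refine Summable.of_nonneg_of_le (fun n => norm_nonneg _) (fun n => ?_) hu
      have h := hb n 0 (Metric.mem_ball_self one_pos)
      rwa [norm_zero, sub_zero, div_one] at h
  · intro w hw
    obtain ⟨r, hr, hwr, hT⟩ := hloc w hw
    have hd := hT.deriv (Filter.Eventually.of_forall (hdp r hr)) Metric.isOpen_ball
    refine le_of_tendsto' (hd.tendsto_at hwr).norm fun N => ?_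
    refine (BLP_deriv (fun n => (hdiff n).differentiableAt (Metric.isOpen_ball.mem_nhds hw))
      (fun n => h1 n w hw) N).2.2.trans ?_
    exact (hs w hw).sum_le_tsum _ fun i _ => norm_nonneg _

end Pool.Agent.H212.CS
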