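import Pool.Agent.H212.CS.Stm

open Complex Set Filter Topology
open scoped ComplexConjugate

namespace Pool.Agent.H212.CS

theorem t_NW : S_NW := by
  intro U F F' hU hF hP a ha b hb hab
  by_contra hne
  have hd0 : b - a ≠ 0 := sub_ne_zero.2 (Ne.symm hne)
  have hseg : ∀ t ∈ Icc (0 : ℝ) 1, a + (t : ℂ) * (b - a) ∈ U := by
    intro t ht
    have h := hU ha hb (sub_nonneg.2 ht.2) ht.1 (by ring)
    have e : a + (t : ℂ) * (b - a) = (1 - t : ℝ) • a + t • b := by
      rw [Complex.real_smul, Complex.real_smul]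
      push_cast
      ring
    rw [e]
    exact h
  have hder : ∀ t ∈ Icc (0 : ℝ) 1, HasDerivAt
      (fun t : ℝ => (F (a + (t : ℂ) * (b - a)) / (b - a)).re)
      (F' (a + (t : ℂ) * (b - a))).re t := by
    intro t ht
    have h1 : HasDerivAt (fun z : ℂ => a + z * (b - a)) (b - a) (t : ℂ) := by
      have := ((hasDerivAt_id (t : ℂ)).mul_const (b - a)).const_add a
      simpa using this
    have h2 : HasDerivAt (fun z : ℂ => F (a + z * (b - a))) (F' (a + (t : ℂ) * (b - a)) * (b - a))
        (t : ℂ) := (hF _ (hseg t ht)).comp (t : ℂ) h1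
    have h3 : HasDerivAt (fun z : ℂ => F (a + z * (b - a)) / (b - a))
        (F' (a + (t : ℂ) * (b - a))) (t : ℂ) := by
      have := h2.div_const (b - a)
      rwa [mul_div_assoc, div_self hd0, mul_one] at this
    exact h3.real_of_complex
  have hmono : StrictMonoOn (fun t : ℝ => (F (a + (t : ℂ) * (b - a)) / (b - a)).re)
      (Icc (0 : ℝ) 1) := by
    refine strictMonoOn_of_deriv_pos (convex_Icc 0 1) ?_ ?_
    · intro t ht
      exact (hder t ht).continuousAt.continuousWithinAt
    · intro t ht
      rw [interior_Icc] at ht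
      have ht' : t ∈ Icc (0 : ℝ) 1 := Ioo_subset_Icc_self ht
      rw [(hder t ht').deriv]
      exact hP _ (hseg t ht')
  have h := hmono (left_mem_Icc.2 zero_le_one) (right_mem_Icc.2 zero_le_one) zero_lt_one
  simp only [ofReal_zero, zero_mul, add_zero, ofReal_one, one_mul, add_sub_cancel] at h
  rw [hab] at h
  exact lt_irrefl _ h

end Pool.Agent.H212.CS
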